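import Pool.Agent.Y361.BC.Dim

/-! The Cantor set, its levels and its gaps (job BC-CAN). -/

set_option autoImplicit false

open MeasureTheory Metric Set Filter Topology
open scoped ContDiff ENNReal

namespace Pool.Agent.Y305.BC

open Pool.Agent.Y361.BC

theorem cc_cont : Continuous cc := by
  refine continuous_tsum (u := fun k => dl k) (fun k => ?_) ?_ fun k w => ?_
  · have : (fun w : ℕ → Bool => if w k then dl k else 0) =
        (fun b : Bool => if b then dl k else 0) ∘ fun w : ℕ → Bool => w k := rfl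
    rw [this]
    exact continuous_of_discreteTopology.comp (continuous_apply k)
  · simpa using (dl_sum 0).summable
  · rw [Real.norm_of_nonneg (term_bound w k).1]
    exact (term_bound w k).2

theorem KK_compact : IsCompact KK := isCompact_range cc_cont

theorem cc_ind (A : Finset ℕ) : cc (fun k => decide (k ∈ A)) = xx A := by
  rw [cc, xx, tsum_eq_sum (s := A)]
  · refine Finset.sum_congr rfl fun k hk => ?_
    simp [hk]
  · intro k hk
    simp [hk]

theorem xx_mem (A : Finset ℕ) : xx A ∈ KK := ⟨_, cc_ind A⟩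

theorem cc_ind' {n : ℕ} {A : Finset ℕ} (hA : A ⊆ Finset.range n) :
    cc (fun k => decide (k ∈ A ∨ n ≤ k)) = xx A + ll n := by
  rw [cc_split _ n]
  congr 1
  · congr 1
    ext k
    simp only [Finset.mem_filter, Finset.mem_range, decide_eq_true_eq]
    constructor
    · rintro ⟨h1, h2 | h2⟩
      · exact h2
      · omega
    · intro h
      exact ⟨Finset.mem_range.1 (hA h), Or.inl h⟩
  · rw [← (dl_sum n).tsum_eq]
    congr 1
    ext k
    simp

theorem xx_mem' {n : ℕ} {A : Finset ℕ} (hA : A ⊆ Finset.range n) : xx A + ll n ∈ KK :=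
  ⟨_, cc_ind' hA⟩

theorem mem_DD {n : ℕ} {t : ℝ} :
    t ∈ DD n ↔ ∃ A ⊆ Finset.range n, xx A ≤ t ∧ t ≤ xx A + ll n := by
  simp only [DD, mem_iUnion, Finset.mem_powerset, mem_Icc, exists_prop]

theorem DD_closed (n : ℕ) : IsClosed (DD n) :=
  isClosed_biUnion_finset fun _ _ => isClosed_Icc

theorem xx_erase {n : ℕ} {A : Finset ℕ} (hn : n ∈ A) : xx A = xx (A.erase n) + dl n := by
  rw [xx, xx, Finset.sum_erase_add A _ hn]

theorem erase_sub {n : ℕ} {A : Finset ℕ} (hA : A ⊆ Finset.range (n + 1)) :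
    A.erase n ⊆ Finset.range n := by
  intro k hk
  have hk1 := Finset.mem_of_mem_erase hk
  have hk2 := Finset.ne_of_mem_erase hk
  have hk3 := Finset.mem_range.1 (hA hk1)
  exact Finset.mem_range.2 (by omega)

theorem erase_le {n : ℕ} {A : Finset ℕ} {t : ℝ}
    (h1 : xx A ≤ t) (h2 : t ≤ xx A + ll (n + 1)) :
    xx (A.erase n) ≤ t ∧ t ≤ xx (A.erase n) + ll n := by
  have hd : dl n = ll n - ll (n + 1) := rfl
  have hp := dl_pos n
  by_cases hn : n ∈ A
  · rw [xx_erase hn] at h1 h2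
    constructor <;> linarith
  · rw [Finset.erase_eq_of_notMem hn]
    constructor <;> linarith

theorem DD_succ (n : ℕ) : DD (n + 1) ⊆ DD n := by
  intro t ht
  rw [mem_DD] at ht ⊢
  obtain ⟨A, hA, h1, h2⟩ := ht
  exact ⟨A.erase n, erase_sub hA, erase_le h1 h2⟩

theorem DD_anti {m n : ℕ} (h : m ≤ n) : DD n ⊆ DD m := by
  induction n, h using Nat.le_induction with
  | base => exact subset_rfl
  | succ n _ ih => exact (DD_succ n).trans ih

theorem KK_sub (n : ℕ) : KK ⊆ DD n := by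
  rintro _ ⟨w, rfl⟩
  rw [mem_DD]
  exact ⟨_, Finset.filter_subset _ _, near w n⟩

theorem mem_KK_of {t : ℝ} (h : ∀ n, t ∈ DD n) : t ∈ KK := by
  have hc : IsClosed KK := KK_compact.isClosed
  rw [← hc.closure_eq]
  rw [Metric.mem_closure_iff]
  intro ε hε
  obtain ⟨n, hn⟩ := (ll_tend.eventually (gt_mem_nhds hε)).exists
  obtain ⟨A, hA, h1, h2⟩ := mem_DD.1 (h n)
  refine ⟨xx A, xx_mem A, ?_⟩
  rw [Real.dist_eq, abs_lt]
  constructor <;> linarith

theorem lev_spec {t : ℝ} (ht : t ∉ KK) : t ∉ DD (lev t) := by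
  have hne : {n | t ∉ DD n}.Nonempty := by
    by_contra h
    apply ht
    apply mem_KK_of
    intro n
    by_contra h2
    exact h ⟨n, h2⟩
  exact Nat.sInf_mem hne

theorem lev_lt {t : ℝ} {m : ℕ} (h : m < lev t) : t ∈ DD m := by
  by_contra h2
  have : lev t ≤ m := Nat.sInf_le h2
  omega

theorem lev_eq {t : ℝ} {m : ℕ} (h1 : t ∉ DD m) (h2 : ∀ k < m, t ∈ DD k) : lev t = m := by
  apply le_antisymm
  · exact Nat.sInf_le h1
  · by_contra h3
    rw [not_le] at h3
    have h4 : ({n | t ∉ DD n} : Set ℕ).Nonempty := ⟨m, h1⟩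
    have h5 : lev t ∈ {n | t ∉ DD n} := Nat.sInf_mem h4
    exact h5 (h2 _ h3)

theorem lev_loc {t : ℝ} (ht : t ∉ KK) : ∀ᶠ s in 𝓝 t, lev s = lev t := by
  have h1 : ∀ᶠ s in 𝓝 t, s ∉ DD (lev t) :=
    (DD_closed _).isOpen_compl.mem_nhds (lev_spec ht)
  have h2 : ∀ᶠ s in 𝓝 t, ∀ k < lev t, s ∈ DD k := by
    by_cases h0 : lev t = 0
    · refine Eventually.of_forall fun s k hk => ?_
      omega
    · have h3 : t ∈ DD (lev t - 1) := lev_lt (by omega)
      obtain ⟨A, hA, a1, a2⟩ := mem_DD.1 h3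
      have b1 : xx A < t := lt_of_le_of_ne a1 fun h => ht (h ▸ xx_mem A)
      have b2 : t < xx A + ll (lev t - 1) :=
        lt_of_le_of_ne a2 fun h => ht (by rw [h]; exact xx_mem' hA)
      filter_upwards [Ioo_mem_nhds b1 b2] with s hs k hk
      have : s ∈ DD (lev t - 1) := mem_DD.2 ⟨A, hA, hs.1.le, hs.2.le⟩
      exact DD_anti (by omega) this
  filter_upwards [h1, h2] with s a b
  exact lev_eq a b

theorem sep_aux {m n : ℕ} {A B : Finset ℕ} (hB : B ⊆ Finset.range m) (hn : n < m)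
    (h1 : ∀ k < n, (k ∈ A ↔ k ∈ B)) (h2 : n ∈ A) (h3 : n ∉ B) : xx B + ll m < xx A := by
  have h := cc_sep' (w := fun k => decide (k ∈ A)) (w' := fun k => decide (k ∈ B ∨ m ≤ k))
    (n := n) (fun k hk => by
      have : ¬ m ≤ k := by omega
      simp [this, h1 k hk]) (by simpa using h2) (by simp [h3, hn])
  rw [cc_ind, cc_ind' hB] at h
  have := sp_pos n
  linarith

theorem sep {m : ℕ} {A B : Finset ℕ} (hA : A ⊆ Finset.range m) (hB : B ⊆ Finset.range m)
    (h : A ≠ B) : xx B + ll m < xx A ∨ xx A + ll m < xx B := by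
  have hne : (fun k => decide (k ∈ A)) ≠ (fun k => decide (k ∈ B)) := by
    intro he
    apply h
    ext k
    have := congrFun he k
    simpa using this
  obtain ⟨n, h1, h2⟩ := first_diff hne
  have h1' : ∀ k < n, (k ∈ A ↔ k ∈ B) := fun k hk => by simpa using h1 k hk
  by_cases hn : n ∈ A
  · have hnB : n ∉ B := fun hb => h2 (by simp [hn, hb])
    exact Or.inl (sep_aux hB (Finset.mem_range.1 (hA hn)) h1' hn hnB)
  · have hnB : n ∈ B := by
      by_contra hb
      exact h2 (by simp [hn, hb])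
    exact Or.inr (sep_aux hA (Finset.mem_range.1 (hB hnB)) (fun k hk => (h1' k hk).symm) hnB hn)

/-- gap points near a point of the Cantor set -/
theorem gap (w : ℕ → Bool) (m : ℕ) :
    ∃ t : ℝ, t ∉ KK ∧ lev t = m + 1 ∧ |t - cc w| ≤ ll m := by
  set A := (Finset.range m).filter fun k => w k = true with hA
  have hAm : A ⊆ Finset.range m := Finset.filter_subset _ _
  have hl := ll_lt m
  have hp := ll_pos (m + 1)
  have hd : dl m = ll m - ll (m + 1) := rfl
  set t := xx A + ll (m + 1) + (dl m - ll (m + 1)) / 2 with ht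
  have h1 : t ∈ DD m := by
    refine mem_DD.2 ⟨A, hAm, ?_, ?_⟩
    · rw [ht, hd]; linarith
    · rw [ht, hd]; linarith
  have h2 : t ∉ DD (m + 1) := by
    intro h
    obtain ⟨B, hB, b1, b2⟩ := mem_DD.1 h
    by_cases hBA : A = B.erase m
    · by_cases hm : m ∈ B
      · rw [xx_erase hm, ← hBA] at b1
        rw [ht, hd] at b1
        linarith
      · rw [Finset.erase_eq_of_notMem hm] at hBA
        rw [← hBA, ht, hd] at b2
        linarith
    · obtain ⟨c1, c2⟩ := erase_le b1 b2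
      have d1 : xx A ≤ t := by rw [ht, hd]; linarith
      have d2 : t ≤ xx A + ll m := by rw [ht, hd]; linarith
      rcases sep hAm (erase_sub hB) hBA with h3 | h3 <;> linarith
  refine ⟨t, fun h => h2 (KK_sub _ h), lev_eq h2 fun k hk => DD_anti (by omega) h1, ?_⟩
  have := near w m
  rw [← hA] at this
  rw [abs_le, ht, hd]
  constructor <;> linarith

theorem DD_zero {t : ℝ} (h : t ∈ DD 0) : t ∈ Icc (0 : ℝ) (1 / 4) := by
  obtain ⟨A, hA, h1, h2⟩ := mem_DD.1 h
  have : A = ∅ := by simpa using hA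
  subst this
  have e : ll 0 = 1 / 4 := by norm_num [ll]
  rw [e] at h2
  simp only [xx, Finset.sum_empty, zero_add] at h1 h2
  exact ⟨h1, h2⟩

theorem lev_out {t : ℝ} (ht : t ∉ Icc (0 : ℝ) (1 / 4)) : lev t = 0 :=
  lev_eq (fun h => ht (DD_zero h)) fun k hk => by omega

theorem chi_zero {t : ℝ} (h : Even (lev t)) : chi t = 0 := by
  rw [chi, if_neg (Nat.not_odd_iff_even.2 h)]

theorem chi_one {t : ℝ} (h : Odd (lev t)) : chi t = 1 := by
  rw [chi, if_pos h]

theorem gaps (w : ℕ → Bool) {δ : ℝ} (hδ : 0 < δ) :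
    (∃ t, |t - cc w| < δ ∧ t ∉ KK ∧ chi t = 0) ∧ ∃ t, |t - cc w| < δ ∧ t ∉ KK ∧ chi t = 1 := by
  obtain ⟨N, hN⟩ := (ll_tend.eventually (gt_mem_nhds hδ)).exists_forall_of_atTop
  constructor
  · obtain ⟨t, t1, t2, t3⟩ := gap w (2 * N + 1)
    exact ⟨t, t3.trans_lt (hN _ (by omega)), t1, chi_zero (by rw [t2]; exact ⟨N + 1, by ring⟩)⟩
  · obtain ⟨t, t1, t2, t3⟩ := gap w (2 * N)
    exact ⟨t, t3.trans_lt (hN _ (by omega)), t1, chi_one (by rw [t2]; exact ⟨N, by ring⟩)⟩

theorem can : S_CAN := by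
  refine ⟨KK_compact, fun t ht => DD_zero (KK_sub 0 ht), xx_mem, near, fun t => ?_, fun t ht => ?_,
    fun t ht => ?_, ?_, ?_⟩
  · unfold chi
    split_ifs
    · exact Or.inr rfl
    · exact Or.inl rfl
  · filter_upwards [lev_loc ht] with s hs
    rw [chi, chi, hs]
  · exact chi_zero (by rw [lev_out ht]; exact ⟨0, rfl⟩)
  · rintro _ ⟨w, rfl⟩ δ hδ
    exact (gaps w hδ).1
  · rintro _ ⟨w, rfl⟩ δ hδ
    exact (gaps w hδ).2

end Pool.Agent.Y305.BC
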