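import Pool.Agent.Y305.BC.Ky

/-! The boundary curves. -/

set_option autoImplicit false

open MeasureTheory Metric Set Filter Topology
open scoped ContDiff ENNReal

namespace Pool.Agent.Y305.BC

theorem ex_hasDeriv (x : ℝ) : HasDerivAt ex (2 * Real.pi * Complex.I * ex x) x := by
  have h1 : HasDerivAt (fun x : ℝ => (2 * (Real.pi : ℂ) * (x : ℂ) * Complex.I))
      (2 * Real.pi * Complex.I) x := by
    have h2 : HasDerivAt (fun x : ℝ => (x : ℂ)) 1 x := Complex.ofRealCLM.hasDerivAt
    have h3 := (h2.const_mul (2 * (Real.pi : ℂ))).mul_const Complex.I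
    simpa using h3
  have h4 := h1.cexp
  unfold ex
  convert h4 using 1
  ring

theorem pol_hasDeriv (r x : ℝ) : HasDerivAt (pol r) (av r x) x := by
  have h := (ex_hasDeriv x).const_mul (r : ℂ)
  have h2 : (r : ℂ) * (2 * Real.pi * Complex.I * ex x) = av r x := by
    unfold av pol
    ring
  rw [h2] at h
  exact h

theorem ex_smooth : ContDiff ℝ ∞ ex := by
  have h1 : ContDiff ℝ ∞ (fun x : ℝ => (2 * (Real.pi : ℂ) * (x : ℂ) * Complex.I)) :=
    (contDiff_const.mul Complex.ofRealCLM.contDiff).mul contDiff_const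
  exact h1.cexp

theorem pol_smooth (r : ℝ) : ContDiff ℝ ∞ (pol r) := contDiff_const.mul ex_smooth

theorem ex_add_int (x : ℝ) (k : ℤ) : ex (x + k) = ex x := by
  unfold ex
  have : (2 * (Real.pi : ℂ) * ((x + k : ℝ) : ℂ) * Complex.I) =
      2 * Real.pi * x * Complex.I + k * (2 * Real.pi * Complex.I) := by
    push_cast; ring
  rw [this, Complex.exp_add, Complex.exp_int_mul_two_pi_mul_I, mul_one]

theorem ex_sub_int (x : ℝ) (k : ℤ) : ex (x - k) = ex x := by
  have := ex_add_int (x - k) k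
  rw [sub_add_cancel] at this
  exact this.symm

theorem ex_add_one (x : ℝ) : ex (x + 1) = ex x := by
  have := ex_add_int x 1
  simpa using this

theorem pol_one (x : ℝ) : pol 1 x = ex x := by
  unfold pol
  simp

theorem ex_ne_zero (x : ℝ) : ex x ≠ 0 := Complex.exp_ne_zero _

theorem pt_smooth : ContDiff ℝ ∞ (fun p : ℂ × ℂ => pt p.1 p.2) :=
  (WithLp.prodContinuousLinearEquiv 2 ℝ ℂ ℂ).symm.contDiff

theorem pt_hasDeriv {f g : ℝ → ℂ} {f' g' : ℂ} {x : ℝ} (hf : HasDerivAt f f' x)
    (hg : HasDerivAt g g' x) : HasDerivAt (fun x => pt (f x) (g x)) (pt f' g') x := by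
  have h := (WithLp.prodContinuousLinearEquiv 2 ℝ ℂ ℂ).symm.toContinuousLinearMap.hasFDerivAt.comp_hasDerivAt
    (x := x) (hf.prodMk hg)
  exact h

/-- the free part of the boundary over the unit circle -/
noncomputable def phi (P q M : ℂ → ℂ) (x : ℝ) : ℂ := P (ex x) + (P (ex x) - q (ex x)) - M (ex x)

/-- the boundary curves -/
noncomputable def cu (P q M : ℂ → ℂ) (i : Fin 2) (x : ℝ) : E :=
  if i = 0 then pt (ex x) (phi P q M x) else pt (pol 2 x) (M (pol 2 x))

theorem cu0 (P q M : ℂ → ℂ) : cu P q M 0 = fun x => pt (ex x) (phi P q M x) := rfl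

theorem cu1 (P q M : ℂ → ℂ) : cu P q M 1 = fun x => pt (pol 2 x) (M (pol 2 x)) := rfl

/-- smoothness data of the construction -/
structure Dat2 (P q q' M : ℂ → ℂ) : Prop where
  sP : ContDiff ℝ ∞ (fun x : ℝ => P (ex x))
  sM : ContDiff ℝ ∞ (fun x : ℝ => M (pol 2 x))
  sq : ContDiff ℝ ∞ (fun x : ℝ => q (ex x))
  sc : ContDiff ℝ ∞ (fun x : ℝ => (chi x : ℂ) * q (ex x))
  dc : ∀ t : ℝ, HasDerivAt (fun t : ℝ => (chi t : ℂ) * q (ex t))
        ((chi t : ℂ) * (q' (ex t) * av 1 t)) t

theorem loc (hCAN : S_CAN) {P P' q q' M M' : ℂ → ℂ} (hD : Dat P P' q q' M M') (x0 : ℝ) :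
    ∃ k : ℤ, ∀ᶠ x in 𝓝 x0, P (ex x) - M (ex x) = (chi (x - k) : ℂ) * q (ex (x - k)) := by
  obtain ⟨-, -, -, -, -, -, hout, -, -⟩ := hCAN
  have hy : ∀ y : ℝ, -(1 / 2) < y → y < 1 → P (ex y) - M (ex y) = (chi y : ℂ) * q (ex y) := by
    intro y h1 h2
    rcases le_or_gt y (1 / 2) with h3 | h3
    · exact hD.pm y h1.le h3
    · have h4 := hD.pm (y - 1) (by linarith) (by linarith)
      have h5 : ex (y - 1) = ex y := by
        have := ex_add_one (y - 1)
        rw [sub_add_cancel] at this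
        exact this.symm
      rw [h5, hout (y - 1) (fun h => by linarith [h.1])] at h4
      rw [hout y (fun h => by linarith [h.2]), h4]
  refine ⟨⌊x0 + 1 / 4⌋, ?_⟩
  have h1 := Int.floor_le (x0 + 1 / 4)
  have h2 := Int.lt_floor_add_one (x0 + 1 / 4)
  have h3 : Ioo (⌊x0 + 1 / 4⌋ - 1 / 2 : ℝ) (⌊x0 + 1 / 4⌋ + 1) ∈ 𝓝 x0 :=
    Ioo_mem_nhds (by linarith) (by linarith)
  filter_upwards [h3] with x hx
  have h4 := hy (x - ⌊x0 + 1 / 4⌋) (by linarith [hx.1]) (by linarith [hx.2])
  rw [ex_sub_int] at h4 ⊢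
  exact h4

theorem smooth_diff (hCAN : S_CAN) {P P' q q' M M' : ℂ → ℂ} (hD : Dat P P' q q' M M')
    (hE : Dat2 P q q' M) : ContDiff ℝ ∞ (fun x : ℝ => P (ex x) - M (ex x)) := by
  rw [contDiff_iff_contDiffAt]
  intro x0
  obtain ⟨k, hk⟩ := loc hCAN hD x0
  have h1 : ContDiff ℝ ∞ (fun x : ℝ => (chi (x - k) : ℂ) * q (ex (x - k))) :=
    hE.sc.comp (contDiff_id.sub contDiff_const)
  exact h1.contDiffAt.congr_of_eventuallyEq hk

theorem phi_smooth (hCAN : S_CAN) {P P' q q' M M' : ℂ → ℂ} (hD : Dat P P' q q' M M')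
    (hE : Dat2 P q q' M) : ContDiff ℝ ∞ (phi P q M) := by
  have h := ((smooth_diff hCAN hD hE).add hE.sP).sub hE.sq
  have h2 : phi P q M = fun x : ℝ => P (ex x) - M (ex x) + P (ex x) - q (ex x) := by
    funext x
    unfold phi
    ring
  rw [h2]
  exact h

/-- at each point of the circle one sheet goes on and the other one ends at the curve -/
theorem switch (hCAN : S_CAN) (hBD : S_BD) {P P' q q' M M' : ℂ → ℂ} (hD : Dat P P' q q' M M')
    (hE : Dat2 P q q' M) (x : ℝ) :
    ((M (ex x) = P (ex x) ∧ M' (ex x) * av 1 x = P' (ex x) * av 1 x) ∧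
      (phi P q M x = P (ex x) - q (ex x) ∧
        HasDerivAt (phi P q M) ((P' (ex x) - q' (ex x)) * av 1 x) x)) ∨
    ((M (ex x) = P (ex x) - q (ex x) ∧ M' (ex x) * av 1 x = (P' (ex x) - q' (ex x)) * av 1 x) ∧
      (phi P q M x = P (ex x) ∧ HasDerivAt (phi P q M) (P' (ex x) * av 1 x) x)) := by
  obtain ⟨k, hk⟩ := loc hCAN hD x
  have dP : HasDerivAt (fun x : ℝ => P (ex x)) (P' (ex x) * av 1 x) x := by
    have := hBD 0 1 P P' le_rfl one_pos hD.nP 1 ⟨zero_le_one, le_rfl⟩ x
    simpa only [pol_one] using this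
  have dq : HasDerivAt (fun x : ℝ => q (ex x)) (q' (ex x) * av 1 x) x := by
    have := hBD 0 1 q q' le_rfl one_pos hD.nq 1 ⟨zero_le_one, le_rfl⟩ x
    simpa only [pol_one] using this
  have dM : HasDerivAt (fun x : ℝ => M (ex x)) (M' (ex x) * av 1 x) x := by
    have := hBD 1 2 M M' zero_le_one (by norm_num) hD.nM 1 ⟨le_rfl, by norm_num⟩ x
    simpa only [pol_one] using this
  have dphi : HasDerivAt (phi P q M)
      (P' (ex x) * av 1 x + (P' (ex x) * av 1 x - q' (ex x) * av 1 x) - M' (ex x) * av 1 x) x :=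
    (dP.add (dP.sub dq)).sub dM
  have h0 := hk.self_of_nhds
  have hav : av 1 (x - k) = av 1 x := by
    unfold av
    rw [pol_one, pol_one, ex_sub_int]
  have h1 : P' (ex x) * av 1 x - M' (ex x) * av 1 x =
      (chi (x - k) : ℂ) * (q' (ex x) * av 1 x) := by
    have h2 := dP.sub dM
    have h3 : HasDerivAt (fun x : ℝ => (chi (x - k) : ℂ) * q (ex (x - k)))
        ((chi (x - k) : ℂ) * (q' (ex x) * av 1 x)) x := by
      have h4 := (hE.dc (x - k)).comp_sub_const x (k : ℝ)
      rwa [hav, ex_sub_int] at h4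
    exact h2.unique (h3.congr_of_eventuallyEq hk)
  rw [ex_sub_int] at h0
  rcases hCAN.2.2.2.2.1 (x - k) with h | h
  · left
    rw [h, Complex.ofReal_zero, zero_mul] at h0 h1
    have e0 : M (ex x) = P (ex x) := by linear_combination -h0
    have e1 : M' (ex x) * av 1 x = P' (ex x) * av 1 x := by linear_combination -h1
    refine ⟨⟨e0, e1⟩, ?_, ?_⟩
    · unfold phi
      rw [e0]; ring
    · rw [e1] at dphi
      convert dphi using 1
      ring
  · right
    rw [h, Complex.ofReal_one, one_mul] at h0 h1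
    have e0 : M (ex x) = P (ex x) - q (ex x) := by linear_combination -h0
    have e1 : M' (ex x) * av 1 x = (P' (ex x) - q' (ex x)) * av 1 x := by linear_combination -h1
    refine ⟨⟨e0, e1⟩, ?_, ?_⟩
    · unfold phi
      rw [e0]; ring
    · rw [e1] at dphi
      convert dphi using 1
      ring

theorem closed_cu (hCAN : S_CAN) {P P' q q' M M' : ℂ → ℂ} (hD : Dat P P' q q' M M')
    (hE : Dat2 P q q' M) : ClosedCurves (cu P q M) := by
  have hphi := phi_smooth hCAN hD hE
  have hinj : ∀ s ∈ Ico (0 : ℝ) 1, ∀ t ∈ Ico (0 : ℝ) 1, ex s = ex t → s = t := by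
    intro s hs t ht h
    refine ex_inj h ?_
    rw [abs_lt]
    constructor <;> linarith [hs.1, hs.2, ht.1, ht.2]
  have h2 : ∀ t, ‖pol 2 t‖ = 2 := fun t => by
    rw [norm_pol, abs_of_pos (by norm_num)]
  constructor
  · intro i
    fin_cases i
    · exact pt_smooth.comp (ex_smooth.prodMk hphi)
    · exact pt_smooth.comp ((pol_smooth 2).prodMk hE.sM)
  · intro i t
    fin_cases i
    · show pt (ex (t + 1)) (phi P q M (t + 1)) = pt (ex t) (phi P q M t)
      unfold phi
      rw [ex_add_one]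
    · show pt (pol 2 (t + 1)) (M (pol 2 (t + 1))) = pt (pol 2 t) (M (pol 2 t))
      unfold pol
      rw [ex_add_one]
  · intro i t h
    fin_cases i
    · have h1 : HasDerivAt (cu P q M 0) (pt (2 * Real.pi * Complex.I * ex t)
          (deriv (phi P q M) t)) t :=
        pt_hasDeriv (ex_hasDeriv t) ((hphi.differentiable (by simp)).differentiableAt.hasDerivAt)
      have h3 : deriv (cu P q M 0) t = 0 := h
      rw [h1.deriv] at h3
      have h4 : 2 * Real.pi * Complex.I * ex t = 0 := congrArg (fun x : E => x.fst) h3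
      have h5 := ex_ne_zero t
      simp [Real.pi_ne_zero, h5] at h4
    · have h1 : HasDerivAt (cu P q M 1) (pt (av 2 t)
          (deriv (fun x : ℝ => M (pol 2 x)) t)) t :=
        pt_hasDeriv (pol_hasDeriv 2 t)
          ((hE.sM.differentiable (by simp)).differentiableAt.hasDerivAt)
      have h3 : deriv (cu P q M 1) t = 0 := h
      rw [h1.deriv] at h3
      have h4 : av 2 t = 0 := congrArg (fun x : E => x.fst) h3
      have h5 := ex_ne_zero t
      simp [av, pol, Real.pi_ne_zero, h5] at h4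
  · intro i j s hs t ht h
    fin_cases i <;> fin_cases j
    · have h1 : ex s = ex t := congrArg (fun x : E => x.fst) h
      exact ⟨rfl, hinj s hs t ht h1⟩
    · have h1 : ex s = pol 2 t := congrArg (fun x : E => x.fst) h
      have h3 := h2 t
      rw [← h1, norm_ex] at h3
      norm_num at h3
    · have h1 : pol 2 s = ex t := congrArg (fun x : E => x.fst) h
      have h3 := h2 s
      rw [h1, norm_ex] at h3
      norm_num at h3
    · have h1 : pol 2 s = pol 2 t := congrArg (fun x : E => x.fst) h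
      have h3 : ex s = ex t := by
        unfold pol at h1
        exact mul_left_cancel₀ (by norm_num) h1
      exact ⟨rfl, hinj s hs t ht h3⟩

end Pool.Agent.Y305.BC
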