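import Pool.Agent.Y305.BC.As1

/-! The boundary of the current. -/

set_option autoImplicit false

open MeasureTheory Metric Set Filter Topology
open scoped ContDiff ENNReal

namespace Pool.Agent.Y305.BC

theorem bint_cont {a b : ℝ} {F F' : ℂ → ℂ} (hF : Nice a b F F') {r : ℝ} (ha : 0 ≤ a)
    (hr : r ∈ Icc a b) {η : F1} (hη : Continuous η) :
    Continuous fun x : ℝ => η (pt (pol r x) (F (pol r x))) (tv F' (pol r x) (av r x)) := by
  have hp : Continuous (pol r) := (pol_smooth r).continuous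
  have hn : ∀ x, pol r x ∈ {z : ℂ | a ≤ ‖z‖ ∧ ‖z‖ ≤ b} := by
    intro x
    show a ≤ ‖pol r x‖ ∧ ‖pol r x‖ ≤ b
    rw [norm_pol, abs_of_nonneg (ha.trans hr.1)]
    exact hr
  have h1 : Continuous fun x : ℝ => F (pol r x) := hF.cont.comp_continuous hp hn
  have h2 : Continuous fun x : ℝ => F' (pol r x) := hF.cont'.comp_continuous hp hn
  have h3 : Continuous fun x : ℝ => av r x := by
    unfold av
    exact continuous_const.mul hp
  have h4 : Continuous fun x : ℝ => pt (pol r x) (F (pol r x)) := pt_cont.comp (hp.prodMk h1)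
  have h5 : Continuous fun x : ℝ => tv F' (pol r x) (av r x) :=
    pt_cont.comp (h3.prodMk (h2.mul h3))
  exact (hη.comp h4).clm_apply h5

theorem av_zero (x : ℝ) : av 0 x = 0 := by
  unfold av pol
  simp

theorem tv_zero (F' : ℂ → ℂ) (z : ℂ) : tv F' z 0 = 0 := by
  unfold tv
  rw [mul_zero]
  rfl

theorem has_bd (hCAN : S_CAN) (hGR : S_GR) (hBD : S_BD) (hST : S_ST) {P P' q q' M M' : ℂ → ℂ}
    (hD : Dat P P' q q' M M') (hE : Dat2 P q q' M) :
    HasBoundary (cu P q M) (TTT P (fun z => P z - q z) M) := by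
  intro η hη
  have hηs := hη.1
  have hηc : Continuous η := hηs.continuous
  have nQ := nice_sub hD.nP hD.nq
  have s1 := hST hGR 0 1 P P' le_rfl one_pos hD.nP η hηs
  have s2 := hST hGR 0 1 _ _ le_rfl one_pos nQ η hηs
  have s3 := hST hGR 1 2 M M' zero_le_one (by norm_num) hD.nM η hηs
  simp only [av_zero, tv_zero, map_zero, intervalIntegral.integral_zero, sub_zero] at s1 s2
  unfold TTT
  rw [s1, s2, s3]
  unfold curr
  rw [Fin.sum_univ_two]
  have i01 : (1 : ℝ) ∈ Icc (0 : ℝ) 1 := ⟨zero_le_one, le_rfl⟩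
  have i12 : (1 : ℝ) ∈ Icc (1 : ℝ) 2 := ⟨le_rfl, by norm_num⟩
  have cA := (bint_cont hD.nP le_rfl i01 hηc).intervalIntegrable 0 1 (μ := volume)
  have cB := (bint_cont nQ le_rfl i01 hηc).intervalIntegrable 0 1 (μ := volume)
  have cC := (bint_cont hD.nM zero_le_one i12 hηc).intervalIntegrable 0 1 (μ := volume)
  have hd1 : ∀ t, deriv (cu P q M 1) t = tv M' (pol 2 t) (av 2 t) := by
    intro t
    have h1 := hBD 1 2 M M' zero_le_one (by norm_num) hD.nM 2 ⟨by norm_num, le_rfl⟩ t
    exact (pt_hasDeriv (pol_hasDeriv 2 t) h1).deriv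
  have e1 : (∫ t in (0 : ℝ)..1, η (cu P q M 1 t) (deriv (cu P q M 1) t)) =
      ∫ x in (0 : ℝ)..1, η (pt (pol 2 x) (M (pol 2 x))) (tv M' (pol 2 x) (av 2 x)) := by
    refine intervalIntegral.integral_congr fun t _ => ?_
    show η (cu P q M 1 t) (deriv (cu P q M 1) t) = _
    rw [hd1]
    rfl
  have e0 : (∫ t in (0 : ℝ)..1, η (cu P q M 0 t) (deriv (cu P q M 0) t)) =
      ∫ x in (0 : ℝ)..1, (η (pt (pol 1 x) (P (pol 1 x))) (tv P' (pol 1 x) (av 1 x)) +
        η (pt (pol 1 x) (P (pol 1 x) - q (pol 1 x)))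
          (tv (fun z => P' z - q' z) (pol 1 x) (av 1 x)) -
        η (pt (pol 1 x) (M (pol 1 x))) (tv M' (pol 1 x) (av 1 x))) := by
    refine intervalIntegral.integral_congr fun t _ => ?_
    show η (cu P q M 0 t) (deriv (cu P q M 0) t) =
      η (pt (pol 1 t) (P (pol 1 t))) (tv P' (pol 1 t) (av 1 t)) +
        η (pt (pol 1 t) (P (pol 1 t) - q (pol 1 t)))
          (tv (fun z => P' z - q' z) (pol 1 t) (av 1 t)) -
        η (pt (pol 1 t) (M (pol 1 t))) (tv M' (pol 1 t) (av 1 t))
    have hex : HasDerivAt ex (av 1 t) t := by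
      have h := ex_hasDeriv t
      have h2 : (2 * Real.pi * Complex.I * ex t) = av 1 t := by
        unfold av
        rw [pol_one]
      rwa [h2] at h
    rw [pol_one]
    rcases switch hCAN hBD hD hE t with ⟨⟨a1, a2⟩, a3, a4⟩ | ⟨⟨a1, a2⟩, a3, a4⟩
    · have h1 : deriv (cu P q M 0) t = pt (av 1 t) ((P' (ex t) - q' (ex t)) * av 1 t) :=
        (pt_hasDeriv hex a4).deriv
      have h2 : cu P q M 0 t = pt (ex t) (P (ex t) - q (ex t)) := by
        show pt (ex t) (phi P q M t) = _
        rw [a3]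
      have h3 : tv M' (ex t) (av 1 t) = tv P' (ex t) (av 1 t) := by
        unfold tv
        rw [a2]
      rw [h1, h2, h3, a1]
      unfold tv
      ring
    · have h1 : deriv (cu P q M 0) t = pt (av 1 t) (P' (ex t) * av 1 t) :=
        (pt_hasDeriv hex a4).deriv
      have h2 : cu P q M 0 t = pt (ex t) (P (ex t)) := by
        show pt (ex t) (phi P q M t) = _
        rw [a3]
      have h3 : tv M' (ex t) (av 1 t) = tv (fun z => P' z - q' z) (ex t) (av 1 t) := by
        unfold tv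
        rw [a2]
      rw [h1, h2, h3, a1]
      unfold tv
      ring
  rw [e0, e1, intervalIntegral.integral_sub (cA.add cB) cC, intervalIntegral.integral_add cA cB]
  ring

end Pool.Agent.Y305.BC
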