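import Pool.Agent.Y305.BC.Ky

/-! The current is integer rectifiable; its support. -/

set_option autoImplicit false

open MeasureTheory Metric Set Filter Topology
open scoped ContDiff ENNReal

namespace Pool.Agent.Y305.BC

theorem area_le (v w : E) : area v w ≤ ‖v‖ * ‖w‖ := by
  unfold area
  refine (Real.sqrt_le_sqrt (y := (‖v‖ * ‖w‖) ^ 2) ?_).trans ?_
  · nlinarith [sq_nonneg (inner ℝ v w : ℝ)]
  · rw [Real.sqrt_sq (by positivity)]

theorem area_int {f : ℂ → E} {K : NNReal} (hf : LipschitzWith K f) (a b : ℝ) :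
    (∫⁻ z in rect a b, ENNReal.ofReal (area (fderiv ℝ f z 1) (fderiv ℝ f z Complex.I))) ≠ ⊤ := by
  have h1 : ∀ z, ENNReal.ofReal (area (fderiv ℝ f z 1) (fderiv ℝ f z Complex.I)) ≤
      ENNReal.ofReal (K * K) := by
    intro z
    refine ENNReal.ofReal_le_ofReal ?_
    refine (area_le _ _).trans ?_
    have h2 : ‖fderiv ℝ f z‖ ≤ K := norm_fderiv_le_of_lipschitz ℝ hf
    have h3 : ‖fderiv ℝ f z 1‖ ≤ K := by
      refine ((fderiv ℝ f z).le_opNorm 1).trans ?_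
      rw [norm_one, mul_one]
      exact h2
    have h4 : ‖fderiv ℝ f z Complex.I‖ ≤ K := by
      refine ((fderiv ℝ f z).le_opNorm Complex.I).trans ?_
      rw [Complex.norm_I, mul_one]
      exact h2
    exact mul_le_mul h3 h4 (norm_nonneg _) K.2
  have h5 : (∫⁻ z in rect a b, ENNReal.ofReal (area (fderiv ℝ f z 1) (fderiv ℝ f z Complex.I))) ≤
      ENNReal.ofReal (K * K) * volume (rect a b) := by
    refine (lintegral_mono h1).trans ?_
    rw [setLIntegral_const]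
  refine ne_top_of_le_ne_top ?_ h5
  exact ENNReal.mul_ne_top ENNReal.ofReal_ne_top (rect_bdd a b).measure_lt_top.ne

theorem int_rect (hGR : S_GR) {G1 G2 H G1' G2' H' : ℂ → ℂ} (n1 : Nice 0 1 G1 G1')
    (n2 : Nice 0 1 G2 G2') (nH : Nice 1 2 H H') : IntRect (TTT G1 G2 H) := by
  obtain ⟨K1, l1⟩ := (hGR 0 1 G1 G1' le_rfl one_pos n1).1
  obtain ⟨K2, l2⟩ := (hGR 0 1 G2 G2' le_rfl one_pos n2).1
  obtain ⟨K3, l3⟩ := (hGR 1 2 H H' zero_le_one (by norm_num) nH).1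
  let f : ℕ → ℂ → E := fun j => if j = 0 then gr 0 1 G1 else if j = 1 then gr 0 1 G2 else gr 1 2 H
  let A : ℕ → Set ℂ := fun j => if j = 0 then rect 0 1 else if j = 1 then rect 0 1 else
    if j = 2 then rect 1 2 else ∅
  have hA3 : ∀ j ∉ Finset.range 3, A j = ∅ := by
    intro j hj
    rw [Finset.mem_range, not_lt] at hj
    show (if j = 0 then rect 0 1 else if j = 1 then rect 0 1 else
      if j = 2 then rect 1 2 else ∅) = ∅
    rw [if_neg (by omega), if_neg (by omega), if_neg (by omega)]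
  refine ⟨f, A, ?_, ?_, ?_, ?_⟩
  · intro j
    show ∃ K, LipschitzWith K (if j = 0 then gr 0 1 G1 else if j = 1 then gr 0 1 G2 else gr 1 2 H)
    split_ifs
    · exact ⟨K1, l1⟩
    · exact ⟨K2, l2⟩
    · exact ⟨K3, l3⟩
  · intro j
    show MeasurableSet (if j = 0 then rect 0 1 else if j = 1 then rect 0 1 else
      if j = 2 then rect 1 2 else ∅)
    split_ifs
    · exact (rect_open _ _).measurableSet
    · exact (rect_open _ _).measurableSet
    · exact (rect_open _ _).measurableSet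
    · exact MeasurableSet.empty
  · rw [tsum_eq_sum (s := Finset.range 3)]
    · rw [Finset.sum_range_succ, Finset.sum_range_succ, Finset.sum_range_succ,
        Finset.sum_range_zero, zero_add]
      refine ENNReal.add_ne_top.2 ⟨ENNReal.add_ne_top.2 ⟨?_, ?_⟩, ?_⟩
      · exact area_int l1 0 1
      · exact area_int l2 0 1
      · exact area_int l3 1 2
    · intro j hj
      rw [hA3 j hj]
      simp
  · intro θ _
    rw [tsum_eq_sum (s := Finset.range 3)]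
    · rw [Finset.sum_range_succ, Finset.sum_range_succ, Finset.sum_range_succ,
        Finset.sum_range_zero, zero_add]
      rfl
    · intro j hj
      unfold push
      rw [hA3 j hj]
      simp

theorem gr_mem {G1 G2 H : ℂ → ℂ} {p : ℂ} :
    (p ∈ rect 0 1 → gr 0 1 G1 p ∈ ZZ G1 G2 H ∧ gr 0 1 G2 p ∈ ZZ G1 G2 H) ∧
    (p ∈ rect 1 2 → gr 1 2 H p ∈ ZZ G1 G2 H) := by
  constructor
  · intro hp
    rw [gr_rect hp, gr_rect hp]
    have h1 : ‖pol p.re p.im‖ ≤ 1 := by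
      rw [norm_pol, abs_of_pos hp.1.1]
      exact hp.1.2.le
    exact ⟨Or.inl ⟨h1, Or.inl rfl⟩, Or.inl ⟨h1, Or.inr rfl⟩⟩
  · intro hp
    rw [gr_rect hp]
    have h0 : 0 < p.re := lt_trans one_pos hp.1.1
    refine Or.inr ⟨?_, ?_, rfl⟩
    · show 1 ≤ ‖pol p.re p.im‖
      rw [norm_pol, abs_of_pos h0]
      exact hp.1.1.le
    · show ‖pol p.re p.im‖ ≤ 2
      rw [norm_pol, abs_of_pos h0]
      exact hp.1.2.le

/-- the current depends only on the values of the form on the sheets -/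
theorem TTT_congr {G1 G2 H : ℂ → ℂ} {θ θ' : F2} (h : ∀ x ∈ ZZ G1 G2 H, θ x = θ' x) :
    TTT G1 G2 H θ = TTT G1 G2 H θ' := by
  unfold TTT push
  congr 1
  · congr 1
    · refine setIntegral_congr_fun (rect_open 0 1).measurableSet fun p hp => ?_
      show θ (gr 0 1 G1 p) _ _ = θ' (gr 0 1 G1 p) _ _
      rw [h _ (gr_mem.1 hp).1]
    · refine setIntegral_congr_fun (rect_open 0 1).measurableSet fun p hp => ?_
      show θ (gr 0 1 G2 p) _ _ = θ' (gr 0 1 G2 p) _ _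
      rw [h _ ((gr_mem (G1 := G1)).1 hp).2]
  · refine setIntegral_congr_fun (rect_open 1 2).measurableSet fun p hp => ?_
    show θ (gr 1 2 H p) _ _ = θ' (gr 1 2 H p) _ _
    rw [h _ (gr_mem.2 hp)]

theorem TTT_zero {G1 G2 H : ℂ → ℂ} {θ : F2} (h : ∀ x ∈ ZZ G1 G2 H, θ x = 0) :
    TTT G1 G2 H θ = 0 := by
  rw [TTT_congr (θ' := fun _ => 0) h]
  unfold TTT push
  simp

theorem ZZ_eq {G1 G2 H : ℂ → ℂ} : ZZ G1 G2 H =
    (fun z => pt z (G1 z)) '' closedBall 0 1 ∪ (fun z => pt z (G2 z)) '' closedBall 0 1 ∪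
      (fun z => pt z (H z)) '' {z | 1 ≤ ‖z‖ ∧ ‖z‖ ≤ 2} := by
  ext x
  constructor
  · rintro (⟨h1, h | h⟩ | ⟨h1, h2, h⟩)
    · exact Or.inl (Or.inl (mem_graph (mem_closedBall_zero_iff.2 h1) h))
    · exact Or.inl (Or.inr (mem_graph (mem_closedBall_zero_iff.2 h1) h))
    · exact Or.inr (mem_graph (N := {z : ℂ | 1 ≤ ‖z‖ ∧ ‖z‖ ≤ 2}) ⟨h1, h2⟩ h)
  · rintro ((⟨z, hz, rfl⟩ | ⟨z, hz, rfl⟩) | ⟨z, hz, rfl⟩)
    · exact Or.inl ⟨mem_closedBall_zero_iff.1 hz, Or.inl rfl⟩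
    · exact Or.inl ⟨mem_closedBall_zero_iff.1 hz, Or.inr rfl⟩
    · exact Or.inr ⟨hz.1, hz.2, rfl⟩

theorem ann_compact : IsCompact {z : ℂ | 1 ≤ ‖z‖ ∧ ‖z‖ ≤ 2} := by
  have h1 : IsClosed {z : ℂ | 1 ≤ ‖z‖ ∧ ‖z‖ ≤ 2} :=
    (isClosed_le continuous_const continuous_norm).inter
      (isClosed_le continuous_norm continuous_const)
  refine (isCompact_closedBall (0 : ℂ) 2).of_isClosed_subset h1 fun z hz => ?_
  exact mem_closedBall_zero_iff.2 hz.2

theorem ZZ_compact {G1 G2 H G1' G2' H' : ℂ → ℂ} (n1 : Nice 0 1 G1 G1')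
    (n2 : Nice 0 1 G2 G2') (nH : Nice 1 2 H H') : IsCompact (ZZ G1 G2 H) := by
  rw [ZZ_eq]
  have c1 : ContinuousOn G1 (closedBall 0 1) := disc_eq ▸ n1.cont
  have c2 : ContinuousOn G2 (closedBall 0 1) := disc_eq ▸ n2.cont
  exact ((graph_compact (isCompact_closedBall _ _) c1).union
    (graph_compact (isCompact_closedBall _ _) c2)).union (graph_compact ann_compact nH.cont)

theorem supp_sub {G1 G2 H G1' G2' H' : ℂ → ℂ} (n1 : Nice 0 1 G1 G1')
    (n2 : Nice 0 1 G2 G2') (nH : Nice 1 2 H H') : supp univ (TTT G1 G2 H) ⊆ ZZ G1 G2 H := by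
  rintro x ⟨-, hx⟩
  by_contra h
  obtain ⟨θ, h1, h2⟩ := hx (ZZ G1 G2 H)ᶜ (ZZ_compact n1 n2 nH).isClosed.isOpen_compl h
    (subset_univ _)
  apply h2
  refine TTT_zero fun y hy => ?_
  by_contra h3
  exact h1.2.2.1 (subset_tsupport θ h3) hy

end Pool.Agent.Y305.BC
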