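import Pool.Agent.Y305.BC.As3

/-! The current is mass-minimizing. -/

set_option autoImplicit false

open MeasureTheory Metric Set Filter Topology
open scoped ContDiff ENNReal

namespace Pool.Agent.Y305.BC

theorem mass_le (hGR : S_GR) (hCAL : S_CAL) {G1 G2 H G1' G2' H' : ℂ → ℂ} (n1 : Nice 0 1 G1 G1')
    (n2 : Nice 0 1 G2 G2') (nH : Nice 1 2 H H') :
    mass (TTT G1 G2 H) ≤ ENNReal.ofReal (TTT G1 G2 H (fun _ => kah)) := by
  unfold mass
  refine iSup_le fun θ => iSup_le fun h1 => iSup_le fun h2 => ENNReal.ofReal_le_ofReal ?_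
  have a1 := hCAL hGR 0 1 G1 G1' le_rfl one_pos n1 θ h1 h2
  have a2 := hCAL hGR 0 1 G2 G2' le_rfl one_pos n2 θ h1 h2
  have a3 := hCAL hGR 1 2 H H' zero_le_one (by norm_num) nH θ h1 h2
  unfold TTT
  linarith

theorem le_mass {S : F2 → ℝ} {θ : F2} (h1 : Form2 univ θ) (h2 : ∀ x, ‖θ x‖ ≤ 1) :
    ENNReal.ofReal (S θ) ≤ mass S :=
  le_iSup_of_le θ (le_iSup_of_le h1 (le_iSup_of_le h2 le_rfl))

theorem zero_form : Form2 univ (fun _ : E => (0 : E →L[ℝ] E →L[ℝ] ℝ)) := by
  refine ⟨contDiff_const, ?_, subset_univ _, fun x v => rfl⟩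
  exact HasCompactSupport.zero

theorem mini (hGR : S_GR) (hCAL : S_CAL) (hLIN : S_LIN) (hFAR : S_FAR) (hCUT : S_CUT)
    {G1 G2 H G1' G2' H' : ℂ → ℂ} (n1 : Nice 0 1 G1 G1')
    (n2 : Nice 0 1 G2 G2') (nH : Nice 1 2 H H') {n : ℕ} {c : Fin n → ℝ → E}
    (hbd : HasBoundary c (TTT G1 G2 H)) : Minimizing c (TTT G1 G2 H) := by
  refine ⟨int_rect hGR n1 n2 nH, hbd, fun S hS hSb => ?_⟩
  refine (mass_le hGR hCAL n1 n2 nH).trans ?_
  obtain ⟨C, hC⟩ := hCUT
  choose! η κ β hη hκ hβ hd hκ1 hκn hβC hβn using hC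
  have hC0 : 0 ≤ C := (ContinuousLinearMap.opNorm_nonneg (β 1 0)).trans (hβC 1 le_rfl 0)
  -- the forms far away
  let β' : ℕ → F2 := fun n => if 1 ≤ n then β n else fun _ => 0
  have hβ'1 : ∀ n, Form2 univ (β' n) := by
    intro n
    show Form2 univ (if 1 ≤ n then β n else fun _ => 0)
    split_ifs with h
    · exact hβ n h
    · exact zero_form
  have hβ'2 : ∀ n x, ‖β' n x‖ ≤ C := by
    intro n x
    show ‖(if 1 ≤ n then β n else fun _ => 0) x‖ ≤ C
    split_ifs with h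
    · exact hβC n h x
    · exact (ContinuousLinearMap.opNorm_zero).le.trans hC0
  have hβ'3 : ∀ (n : ℕ) (x : E), ‖x‖ ≤ n → β' n x = 0 := by
    intro n x hx
    show (if 1 ≤ n then β n else fun _ => 0) x = 0
    split_ifs with h
    · exact hβn n h x hx
    · rfl
  have hlim : Tendsto (fun n => S (β' n)) atTop (𝓝 0) := hFAR S hS C β' hβ'1 hβ'2 hβ'3
  -- the support is bounded
  obtain ⟨R, hR⟩ := (ZZ_compact n1 n2 nH).isBounded.subset_closedBall (0 : E)
  obtain ⟨n0, hn0⟩ := exists_nat_ge R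
  have hval : ∀ n, max 1 n0 ≤ n → TTT G1 G2 H (fun _ => kah) - S (β' n) = S (κ n) := by
    intro n hn
    have h1 : 1 ≤ n := (le_max_left _ _).trans hn
    have h2 : (n0 : ℝ) ≤ n := by exact_mod_cast (le_max_right _ _).trans hn
    have h3 : β' n = β n := if_pos h1
    have h4 : TTT G1 G2 H (d (η n)) = TTT G1 G2 H (fun _ => kah) := by
      refine TTT_congr fun x hx => ?_
      have h5 : ‖x‖ ≤ n := by
        have := mem_closedBall_zero_iff.1 (hR hx)
        linarith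
      rw [hd n h1]
      show κ n x + β n x = kah
      rw [hκn n h1 x h5, hβn n h1 x h5]
      ext v w
      show kah v w + 0 = kah v w
      rw [add_zero]
    have h6 : S (d (η n)) = S (κ n) + S (β n) := by
      rw [hd n h1]
      exact hLIN S hS _ _ (hκ n h1) (hβ n h1)
    have h7 := hbd (η n) (hη n h1)
    have h8 := hSb (η n) (hη n h1)
    rw [h3, ← h4, h7, ← h8, h6]
    ring
  have hlim2 : Tendsto (fun n => ENNReal.ofReal (TTT G1 G2 H (fun _ => kah) - S (β' n))) atTop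
      (𝓝 (ENNReal.ofReal (TTT G1 G2 H (fun _ => kah)))) := by
    have h1 : Tendsto (fun n => TTT G1 G2 H (fun _ => kah) - S (β' n)) atTop
        (𝓝 (TTT G1 G2 H (fun _ => kah) - 0)) := tendsto_const_nhds.sub hlim
    rw [sub_zero] at h1
    exact (ENNReal.continuous_ofReal.tendsto _).comp h1
  refine le_of_tendsto hlim2 ?_
  filter_upwards [eventually_ge_atTop (max 1 n0)] with n hn
  rw [hval n hn]
  exact le_mass (hκ n ((le_max_left _ _).trans hn)) (hκ1 n ((le_max_left _ _).trans hn))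

end Pool.Agent.Y305.BC
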