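import Pool.Agent.Y305.BC.As2
import Pool.Agent.Y305.BC.As4

/-! Genuine singularities and their dimension; assembly. -/

set_option autoImplicit false

open MeasureTheory Metric Set Filter Topology
open scoped ContDiff ENNReal

namespace Pool.Agent.Y305.BC

theorem zero_current (U : Set E) : CurrentIn U (fun _ => 0) := by
  refine ⟨fun a b θ₁ θ₂ _ _ => by simp, fun K _ _ => ⟨0, fun θ _ _ _ => by simp⟩⟩

theorem genuine (hCAN : S_CAN) (hTRA : S_TRA) (hGR : S_GR) (hEMB : S_EMB)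
    {P P' q q' M M' : ℂ → ℂ} (hD : Dat P P' q q' M M') {x0 : ℝ} (hx0 : x0 ∈ KK) :
    Genuine (cu P q M) (TTT P (fun z => P z - q z) M) (pt (ex x0) (P (ex x0))) := by
  refine ⟨⟨0, x0, ?_⟩, ?_, ?_⟩
  · show pt (ex x0) (P (ex x0)) = pt (ex x0) (phi P q M x0)
    unfold phi
    have h1 := hD.q0 x0 hx0
    have hs := hCAN.2.1 hx0
    have h2 := hD.pm x0 (by linarith [hs.1]) (by linarith [hs.2])
    rw [h1, mul_zero] at h2
    have h3 : P (ex x0) + (P (ex x0) - q (ex x0)) - M (ex x0) = P (ex x0) := by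
      rw [h1]
      linear_combination h2
    rw [h3]
  · have h := key hCAN hTRA hGR hEMB hD hx0 isOpen_univ (zero_current univ)
      (fun θ _ _ => rfl) (fun η _ => rfl)
    simpa only [sub_zero] using h
  · rintro ⟨U, hU, hxU, T1, hT1, hZ, hb, hreg⟩
    refine key hCAN hTRA hGR hEMB hD hx0 hU hT1 (fun θ h1 h2 => hZ θ h1 ?_) hb hreg
    exact h2.mono_right (supp_sub hD.nP (nice_sub hD.nP hD.nq) hD.nM)

/-- the angle divided by `2π` of the first coordinate -/
noncomputable def ang (x : E) : ℝ := (Complex.log x.fst).im / (2 * Real.pi)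

theorem ang_ex {x : ℝ} (hx : x ∈ Icc (0 : ℝ) (1 / 4)) (w : ℂ) : ang (pt (ex x) w) = x := by
  show (Complex.log (ex x)).im / (2 * Real.pi) = x
  have hpi := Real.pi_pos
  unfold ex
  have h : (2 * (Real.pi : ℂ) * (x : ℂ) * Complex.I) = ((2 * Real.pi * x : ℝ) : ℂ) * Complex.I := by
    push_cast; ring
  rw [h, Complex.log_exp]
  · simp only [Complex.mul_im, Complex.ofReal_re, Complex.ofReal_im, Complex.I_re, Complex.I_im]
    field_simp
    ring
  · simp only [Complex.mul_im, Complex.ofReal_re, Complex.ofReal_im, Complex.I_re, Complex.I_im]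
    nlinarith [hx.1, hx.2]
  · simp only [Complex.mul_im, Complex.ofReal_re, Complex.ofReal_im, Complex.I_re, Complex.I_im]
    nlinarith [hx.1, hx.2]

theorem dim_ge (hCAN : S_CAN) (hDIM : S_DIM) (P : ℂ → ℂ) {G : Set E}
    (h : ∀ x ∈ KK, pt (ex x) (P (ex x)) ∈ G) : 1 ≤ dimH G := by
  have hKs := hCAN.2.1
  set t : Set E := (fun x : ℝ => pt (ex x) (P (ex x))) '' KK with ht
  have h1 : dimH t ≤ dimH G := dimH_mono (by
    rintro _ ⟨x, hx, rfl⟩
    exact h x hx)
  refine le_trans ?_ h1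
  have h2 : ang '' t = KK := by
    ext x
    constructor
    · rintro ⟨_, ⟨y, hy, rfl⟩, rfl⟩
      rwa [ang_ex (hKs hy)]
    · intro hx
      exact ⟨_, ⟨x, hx, rfl⟩, ang_ex (hKs hx) _⟩
  refine le_trans hDIM ?_
  rw [← h2]
  set s : Set E := {x : E | 0 < x.fst.re + x.fst.im} with hs
  have hconv : Convex ℝ s := by
    intro x hx y hy a b ha hb hab
    show 0 < (a • x.fst + b • y.fst).re + (a • x.fst + b • y.fst).im
    have hx' : 0 < x.fst.re + x.fst.im := hx
    have hy' : 0 < y.fst.re + y.fst.im := hy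
    simp only [Complex.real_smul, Complex.add_re, Complex.add_im, Complex.mul_re, Complex.mul_im,
      Complex.ofReal_re, Complex.ofReal_im, zero_mul, sub_zero, add_zero]
    rcases lt_or_eq_of_le ha with h | h
    · nlinarith [mul_pos h hx', mul_nonneg hb hy'.le]
    · rw [← h, zero_add] at hab
      rw [← h, hab]
      linarith
  have hts : t ⊆ s := by
    rintro _ ⟨x, hx, rfl⟩
    have hx' := hKs hx
    show 0 < (ex x).re + (ex x).im
    have hpi := Real.pi_pos
    have h3 : (2 * (Real.pi : ℂ) * (x : ℂ) * Complex.I) =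
        ((2 * Real.pi * x : ℝ) : ℂ) * Complex.I := by
      push_cast; ring
    unfold ex
    rw [h3, Complex.exp_ofReal_mul_I_re, Complex.exp_ofReal_mul_I_im]
    have h4 : 0 ≤ Real.cos (2 * Real.pi * x) := by
      refine Real.cos_nonneg_of_mem_Icc ⟨?_, ?_⟩
      · nlinarith [hx'.1, hx'.2]
      · nlinarith [hx'.1, hx'.2]
    have h5 : 0 ≤ Real.sin (2 * Real.pi * x) := by
      refine Real.sin_nonneg_of_nonneg_of_le_pi ?_ ?_
      · nlinarith [hx'.1, hx'.2]
      · nlinarith [hx'.1, hx'.2]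
    have h6 := Real.sin_sq_add_cos_sq (2 * Real.pi * x)
    by_contra h7
    have h8 : Real.cos (2 * Real.pi * x) = 0 := by linarith
    have h9 : Real.sin (2 * Real.pi * x) = 0 := by linarith
    rw [h8, h9] at h6
    norm_num at h6
  have hcd : ContDiffOn ℝ 1 ang s := by
    intro x hx
    refine ContDiffAt.contDiffWithinAt ?_
    have hx' : 0 < x.fst.re + x.fst.im := hx
    have hsl : x.fst ∈ Complex.slitPlane := by
      rw [Complex.mem_slitPlane_iff]
      by_contra h3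
      push Not at h3
      linarith [h3.1, h3.2]
    have h4 : ContDiffAt ℝ 1 Complex.log x.fst := (Complex.contDiffAt_log hsl).restrict_scalars ℝ
    have h5 : ContDiffAt ℝ 1 (fun x : E => Complex.log x.fst) x :=
      h4.comp x ((WithLp.fstL 2 ℝ ℂ ℂ).contDiff.contDiffAt)
    have h6 : ContDiffAt ℝ 1 (fun x : E => (Complex.log x.fst).im) x :=
      Complex.imCLM.contDiff.contDiffAt.comp x h5
    exact h6.div_const _
  exact hcd.dimH_image_le hconv hts

theorem assembly (hCAN : S_CAN) (hDIM : S_DIM) (hPOT : S_POT) (hQSM : S_QSM) (hFOU : S_FOU)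
    (hGR : S_GR) (hBD : S_BD) (hST : S_ST) (hCAL : S_CAL) (hLIN : S_LIN) (hFAR : S_FAR)
    (hCUT : S_CUT) (hTRA : S_TRA) (hEMB : S_EMB) :
    ∃ (c : Fin 2 → ℝ → E) (T : F2 → ℝ), ClosedCurves c ∧ Minimizing c T ∧
      1 ≤ dimH {x | Genuine c T x} := by
  have hc := hCAN
  obtain ⟨hKc, hKs, hxx, hcc, h01, hloc, hout, -, -⟩ := hc
  obtain ⟨q, RR, c0, hPot⟩ := hPOT hKc hxx hcc
  obtain ⟨q', nq, hq⟩ := hQSM q RR c0 hKc hPot
  have hchi : ∀ t, |chi t| ≤ 1 := by
    intro t
    rcases h01 t with h | h <;> rw [h] <;> norm_num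
  obtain ⟨sc, dc⟩ := hq chi hchi hloc
  have sq : ContDiff ℝ ∞ (fun x : ℝ => q (ex x)) := by
    have h1 := (hq (fun _ => 1) (fun t => by norm_num)
      (fun t _ => Eventually.of_forall fun s => rfl)).1
    simpa using h1
  obtain ⟨P, P', M, M', nP, nM, sP, sM, hpm⟩ := hFOU _ sc (fun x hx => by
    rw [hout x hx]
    simp)
  obtain ⟨hc0, hRo, hRd, hRq, hq0, hR1, -⟩ := hPot
  have hD : Dat P P' q q' M M' := by
    refine ⟨nP, nq, nM, hq0, fun z hz hzK => hRq z (hR1 z hz hzK z ?_), hpm⟩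
    rw [sub_self, norm_zero]
    positivity
  have hE : Dat2 P q q' M := ⟨sP, sM, sq, sc, dc⟩
  refine ⟨cu P q M, TTT P (fun z => P z - q z) M, closed_cu hCAN hD hE, ?_, ?_⟩
  · exact mini hGR hCAL hLIN hFAR hCUT nP (nice_sub nP nq) nM (has_bd hCAN hGR hBD hST hD hE)
  · exact dim_ge hCAN hDIM P fun x hx => genuine hCAN hTRA hGR hEMB hD hx

end Pool.Agent.Y305.BC
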