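import Pool.Agent.Y305.BC.Defs

/-! Notions used in the construction. -/

set_option autoImplicit false

open MeasureTheory Metric Set Filter Topology
open scoped ContDiff ENNReal

namespace Pool.Agent.Y305.BC

/-! ### The circle, discs and annuli -/

/-- `exp(2πix)` -/
noncomputable def ex (x : ℝ) : ℂ := Complex.exp (2 * Real.pi * x * Complex.I)

/-- polar coordinates with period `1`: `r exp(2πix)` -/
noncomputable def pol (r x : ℝ) : ℂ := r * ex x

/-- `F` is continuous on the closed disc (`a = 0`) or annulus `a ≤ |z| ≤ b`, holomorphic inside, and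
its derivative `F'` is continuous up to the boundary -/
structure Nice (a b : ℝ) (F F' : ℂ → ℂ) : Prop where
  cont : ContinuousOn F {z | a ≤ ‖z‖ ∧ ‖z‖ ≤ b}
  cont' : ContinuousOn F' {z | a ≤ ‖z‖ ∧ ‖z‖ ≤ b}
  der : ∀ z, a < ‖z‖ → ‖z‖ < b → HasDerivAt F (F' z) z

/-- the point `(z, w)` of `E` -/
noncomputable def pt (z w : ℂ) : E := WithLp.toLp 2 (z, w)

/-- the derivative in the direction `h` of the graph of a function with derivative `F' z` at `z` -/
noncomputable def tv (F' : ℂ → ℂ) (z h : ℂ) : E := pt h (F' z * h)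

/-- the graph of `F` over `a ≤ |z| ≤ b` in polar coordinates `p = r + i x`, extended to all `p` by
clamping `r` -/
noncomputable def gr (a b : ℝ) (F : ℂ → ℂ) (p : ℂ) : E :=
  pt (pol (max a (min b p.re)) p.im) (F (pol (max a (min b p.re)) p.im))

/-- the domain of the polar coordinates -/
def rect (a b : ℝ) : Set ℂ := {p | (a < p.re ∧ p.re < b) ∧ 0 < p.im ∧ p.im < 1}

/-- the angular velocity `d/dx pol r x` -/
noncomputable def av (r x : ℝ) : ℂ := 2 * Real.pi * Complex.I * pol r x

/-- multiplication by `i` on `E` -/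
noncomputable def mulI : E →ₗ[ℝ] E where
  toFun v := Complex.I • v
  map_add' v w := smul_add _ v w
  map_smul' a v := by
    simp only [RingHom.id_apply]
    rw [smul_comm]

/-- the Kähler form `ω(v, w) = ⟨i v, w⟩` of `ℂ²` -/
noncomputable def kah : E →L[ℝ] E →L[ℝ] ℝ :=
  LinearMap.mkContinuous₂
    (LinearMap.mk₂ ℝ (fun v w : E => inner ℝ (mulI v) w)
      (fun a b c => by rw [map_add, inner_add_left])
      (fun a b c => by rw [map_smul, inner_smul_left]; rfl)
      (fun a b c => by rw [inner_add_right])
      (fun a b c => by rw [inner_smul_right]; rfl)) 1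
    (fun v w => by
      rw [one_mul, LinearMap.mk₂_apply]
      have h1 : ‖mulI v‖ = ‖v‖ := by
        show ‖Complex.I • v‖ = ‖v‖
        rw [norm_smul, Complex.norm_I, one_mul]
      have := abs_real_inner_le_norm (mulI v) w
      rw [h1] at this
      exact this)

theorem kah_apply (v w : E) : kah v w = inner ℝ (Complex.I • v) w := rfl

/-- the form `dx ∧ dy` of the first factor `ℂ` -/
noncomputable def vol : E →L[ℝ] E →L[ℝ] ℝ :=
  LinearMap.mkContinuous₂
    (LinearMap.mk₂ ℝ (fun v w : E => v.fst.re * w.fst.im - v.fst.im * w.fst.re)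
      (fun a b c => by
        show (a.fst.re + b.fst.re) * c.fst.im - (a.fst.im + b.fst.im) * c.fst.re = _
        ring)
      (fun t b c => by
        show (t • b.fst).re * c.fst.im - (t • b.fst).im * c.fst.re = _
        simp only [Complex.real_smul, Complex.mul_re, Complex.mul_im, Complex.ofReal_re,
          Complex.ofReal_im, smul_eq_mul]
        ring)
      (fun a b c => by
        show a.fst.re * (b.fst.im + c.fst.im) - a.fst.im * (b.fst.re + c.fst.re) = _
        ring)
      (fun t b c => by
        show b.fst.re * (t • c.fst).im - b.fst.im * (t • c.fst).re = _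
        simp only [Complex.real_smul, Complex.mul_re, Complex.mul_im, Complex.ofReal_re,
          Complex.ofReal_im, smul_eq_mul]
        ring)) 2
    (fun v w => by
      rw [LinearMap.mk₂_apply, Real.norm_eq_abs]
      have hv : ‖v.fst‖ ≤ ‖v‖ := by
        have h := WithLp.prod_norm_sq_eq_of_L2 v
        refine le_of_sq_le_sq ?_ (norm_nonneg _)
        rw [h]
        nlinarith [sq_nonneg ‖v.snd‖]
      have hw : ‖w.fst‖ ≤ ‖w‖ := by
        have h := WithLp.prod_norm_sq_eq_of_L2 w
        refine le_of_sq_le_sq ?_ (norm_nonneg _)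
        rw [h]
        nlinarith [sq_nonneg ‖w.snd‖]
      have a1 := (Complex.abs_re_le_norm v.fst).trans hv
      have a2 := (Complex.abs_im_le_norm v.fst).trans hv
      have a3 := (Complex.abs_re_le_norm w.fst).trans hw
      have a4 := (Complex.abs_im_le_norm w.fst).trans hw
      have b1 : |v.fst.re * w.fst.im| ≤ ‖v‖ * ‖w‖ := by
        rw [abs_mul]
        exact mul_le_mul a1 a4 (abs_nonneg _) (norm_nonneg _)
      have b2 : |v.fst.im * w.fst.re| ≤ ‖v‖ * ‖w‖ := by
        rw [abs_mul]
        exact mul_le_mul a2 a3 (abs_nonneg _) (norm_nonneg _)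
      rw [abs_le] at b1 b2
      rw [abs_le]
      constructor <;> linarith)

theorem vol_apply (v w : E) : vol v w = v.fst.re * w.fst.im - v.fst.im * w.fst.re := rfl

/-- the form `ψ(z) m(z, w) dx ∧ dy` -/
noncomputable def wf (ψ : ℂ → ℝ) (m : E → ℝ) : F2 := fun x => (ψ x.fst * m x) • vol

/-! ### The Cantor set -/

/-- the length of the intervals of level `n` -/
noncomputable def ll (n : ℕ) : ℝ := (1 / 4) * (1 / 2) ^ n / ((n : ℝ) + 1) ^ 3

/-- the steps -/
noncomputable def dl (n : ℕ) : ℝ := ll n - ll (n + 1)

/-- the points of the Cantor set -/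
noncomputable def cc (w : ℕ → Bool) : ℝ := ∑' k, if w k then dl k else 0

/-- finite sums: left end points -/
noncomputable def xx (A : Finset ℕ) : ℝ := ∑ k ∈ A, dl k

/-- the Cantor set -/
def KK : Set ℝ := range cc

/-- the `n`-th approximation -/
def DD (n : ℕ) : Set ℝ := ⋃ A ∈ (Finset.range n).powerset, Icc (xx A) (xx A + ll n)

/-- level of a point outside the Cantor set -/
noncomputable def lev (t : ℝ) : ℕ := sInf {n | t ∉ DD n}

/-- indicator of the odd gaps -/
noncomputable def chi (t : ℝ) : ℝ := if Odd (lev t) then 1 else 0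

/-- the Cantor set on the unit circle -/
def KC : Set ℂ := ex '' KK

/-- the distance from the Cantor set on the circle -/
noncomputable def dk (z : ℂ) : ℝ := infDist z KC

end Pool.Agent.Y305.BC
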