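import Mathlib

/-!
# Mass-minimizing currents in `ℝ⁴`: definitions for MP_08407f_an

`E = ℂ²` with its Euclidean norm is the space `ℝ⁴`.  A `1`-form is a map `η : E → E →L[ℝ] ℝ`, a
`2`-form is a map `θ : E → E →L[ℝ] E →L[ℝ] ℝ` with alternating values; the operator norm `‖θ x‖` is
the comass of `θ` at `x`.  A `2`-current is a function of the `2`-forms.
-/

set_option autoImplicit false

open MeasureTheory Metric Set
open scoped ContDiff ENNReal

namespace Pool.Agent.Y305.BC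

/-- `ℝ⁴ = ℂ²` with the Euclidean norm -/
abbrev E : Type := WithLp 2 (ℂ × ℂ)

/-- `1`-forms -/
abbrev F1 : Type := E → E →L[ℝ] ℝ

/-- bilinear forms depending on a point; `2`-forms are the alternating ones -/
abbrev F2 : Type := E → E →L[ℝ] E →L[ℝ] ℝ

/-- smooth `1`-forms with compact support in `U` -/
def Form1 (U : Set E) (η : F1) : Prop := ContDiff ℝ ∞ η ∧ HasCompactSupport η ∧ tsupport η ⊆ U

/-- smooth `2`-forms with compact support in `U` -/
def Form2 (U : Set E) (θ : F2) : Prop :=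
  ContDiff ℝ ∞ θ ∧ HasCompactSupport θ ∧ tsupport θ ⊆ U ∧ ∀ x v, θ x v v = 0

/-- the exterior derivative of a `1`-form: `dη(v, w) = D_v η (w) - D_w η (v)` -/
noncomputable def d (η : F1) : F2 := fun x => fderiv ℝ η x - (fderiv ℝ η x).flip

/-- `f_# [[A]]` for `f : ℝ² → ℝ⁴`: the integral of `θ` over the parametrised piece `f(A)` -/
noncomputable def push (f : ℂ → E) (A : Set ℂ) (θ : F2) : ℝ :=
  ∫ z in A, θ (f z) (fderiv ℝ f z 1) (fderiv ℝ f z Complex.I)

/-- the area of the parallelogram spanned by `v` and `w` -/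
noncomputable def area (v w : E) : ℝ := Real.sqrt (‖v‖ ^ 2 * ‖w‖ ^ 2 - (inner ℝ v w) ^ 2)

/-- integer rectifiable `2`-currents of finite mass in `ℝ⁴`: sums of countably many Lipschitz images
of measurable subsets of the plane, with finite total area -/
def IntRect (T : F2 → ℝ) : Prop :=
  ∃ (f : ℕ → ℂ → E) (A : ℕ → Set ℂ), (∀ j, ∃ K, LipschitzWith K (f j)) ∧
    (∀ j, MeasurableSet (A j)) ∧
    (∑' j, ∫⁻ z in A j, ENNReal.ofReal
      (area (fderiv ℝ (f j) z 1) (fderiv ℝ (f j) z Complex.I))) ≠ ⊤ ∧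
    ∀ θ, Form2 univ θ → T θ = ∑' j, push (f j) (A j) θ

/-- the mass of a `2`-current -/
noncomputable def mass (T : F2 → ℝ) : ℝ≥0∞ :=
  ⨆ (θ : F2) (_ : Form2 univ θ) (_ : ∀ x, ‖θ x‖ ≤ 1), ENNReal.ofReal (T θ)

/-- A closed oriented smooth `1`-dimensional submanifold of `ℝ⁴` with `n` components, given by smooth
`1`-periodic parametrisations of its components. -/
structure ClosedCurves {n : ℕ} (c : Fin n → ℝ → E) : Prop where
  smooth : ∀ i, ContDiff ℝ ∞ (c i)
  periodic : ∀ i t, c i (t + 1) = c i t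
  immersed : ∀ i t, deriv (c i) t ≠ 0
  embedded : ∀ i j, ∀ s ∈ Ico (0 : ℝ) 1, ∀ t ∈ Ico (0 : ℝ) 1, c i s = c j t → i = j ∧ s = t

/-- the current `[[Γ]]` of integration over the closed curves `c i` -/
noncomputable def curr {n : ℕ} (c : Fin n → ℝ → E) (η : F1) : ℝ :=
  ∑ i, ∫ t in (0 : ℝ)..1, η (c i t) (deriv (c i) t)

/-- `∂T = [[Γ]]` -/
def HasBoundary {n : ℕ} (c : Fin n → ℝ → E) (T : F2 → ℝ) : Prop :=
  ∀ η, Form1 univ η → T (d η) = curr c η

/-- `T` is an integer rectifiable current with `∂T = [[Γ]]` which minimizes mass among all such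
currents -/
def Minimizing {n : ℕ} (c : Fin n → ℝ → E) (T : F2 → ℝ) : Prop :=
  IntRect T ∧ HasBoundary c T ∧ ∀ S, IntRect S → HasBoundary c S → mass T ≤ mass S

/-- the support of `T` in the open set `U` -/
def supp (U : Set E) (T : F2 → ℝ) : Set E :=
  {x | x ∈ U ∧ ∀ W, IsOpen W → x ∈ W → W ⊆ U → ∃ θ, Form2 W θ ∧ T θ ≠ 0}

/-- `Ξ` is a smooth embedded surface (without boundary) in the open set `U`: near each of its points
it is the zero set of a smooth submersion with values in `ℝ² = ℂ` -/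
def Surface (U Ξ : Set E) : Prop :=
  Ξ ⊆ U ∧ ∀ y ∈ Ξ, ∃ V, IsOpen V ∧ y ∈ V ∧ V ⊆ U ∧ ∃ Φ : E → ℂ, ContDiffOn ℝ ∞ Φ V ∧
    Function.Surjective (fderiv ℝ Φ y) ∧ Ξ ∩ V = {x | x ∈ V ∧ Φ x = 0}

/-- `x` is a boundary regular point of the current `T` in `U`: near `x` the support of `T` is
contained in a smooth embedded surface without boundary -/
def RegAt (U : Set E) (T : F2 → ℝ) (x : E) : Prop :=
  ∃ V, IsOpen V ∧ x ∈ V ∧ V ⊆ U ∧ ∃ Ξ, Surface V Ξ ∧ supp V T ⊆ Ξ

/-- a current of locally finite mass in `U` -/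
structure CurrentIn (U : Set E) (T : F2 → ℝ) : Prop where
  lin : ∀ (a b : ℝ) (θ₁ θ₂ : F2), Form2 U θ₁ → Form2 U θ₂ → T (a • θ₁ + b • θ₂) = a * T θ₁ + b * T θ₂
  fin : ∀ K, IsCompact K → K ⊆ U → ∃ C : ℝ, ∀ θ, Form2 U θ → tsupport θ ⊆ K →
    (∀ x, ‖θ x‖ ≤ 1) → |T θ| ≤ C

/-- the boundary point `x` is of crossing type: near `x` there is a decomposition `T = T₁ + T₂`,
`∂T₁ = 0`, `x` a boundary regular point of `T₂`, into currents `T₁, T₂` of locally finite mass with
supports in the support of `T` -/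
def Crossing (T : F2 → ℝ) (x : E) : Prop :=
  ∃ U, IsOpen U ∧ x ∈ U ∧ ∃ T₁, CurrentIn U T₁ ∧
    (∀ θ, Form2 U θ → Disjoint (tsupport θ) (supp univ T) → T₁ θ = 0) ∧
    (∀ η, Form1 U η → T₁ (d η) = 0) ∧ RegAt U (fun θ => T θ - T₁ θ) x

/-- the genuine boundary singularities of `T`: the points of `Γ` which are neither boundary regular
nor of crossing type -/
def Genuine {n : ℕ} (c : Fin n → ℝ → E) (T : F2 → ℝ) (x : E) : Prop :=
  (∃ i t, x = c i t) ∧ ¬ RegAt univ T x ∧ ¬ Crossing T x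

end Pool.Agent.Y305.BC
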