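import Pool.Agent.Y305.BC.Sh3

/-! Points of the Cantor set are neither regular nor of crossing type. -/

set_option autoImplicit false

open MeasureTheory Metric Set Filter Topology
open scoped ContDiff ENNReal

namespace Pool.Agent.Y305.BC

/-- the data of the construction -/
structure Dat (P P' q q' M M' : ℂ → ℂ) : Prop where
  nP : Nice 0 1 P P'
  nq : Nice 0 1 q q'
  nM : Nice 1 2 M M'
  q0 : ∀ x ∈ KK, q (ex x) = 0
  qne : ∀ z, ‖z‖ ≤ 1 → z ∉ KC → q z ≠ 0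
  pm : ∀ x : ℝ, -(1 / 2) ≤ x → x ≤ 1 / 2 → P (ex x) - M (ex x) = (chi x : ℂ) * q (ex x)

theorem nice_sub {a b : ℝ} {F F' G G' : ℂ → ℂ} (hF : Nice a b F F') (hG : Nice a b G G') :
    Nice a b (fun z => F z - G z) (fun z => F' z - G' z) :=
  ⟨hF.cont.sub hG.cont, hF.cont'.sub hG.cont', fun z h1 h2 => (hF.der z h1 h2).sub (hG.der z h1 h2)⟩

theorem disc_eq : {z : ℂ | (0 : ℝ) ≤ ‖z‖ ∧ ‖z‖ ≤ 1} = closedBall 0 1 := by
  ext z
  simp

theorem edge {G1 G2 H : ℂ → ℂ} (c1 : ContinuousOn G1 (closedBall 0 1))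
    (c2 : ContinuousOn G2 (closedBall 0 1)) (cH : ContinuousOn H {z | 1 ≤ ‖z‖ ∧ ‖z‖ ≤ 2}) {e : ℂ}
    (he : ‖e‖ = 1) (h1 : G1 e ≠ G2 e) (h2 : G1 e ≠ H e) :
    ∃ ρ > 0, ∀ z, ‖z - e‖ < ρ → (‖z‖ ≤ 1 → G1 z ≠ G2 z) ∧ (‖z‖ = 1 → G1 z ≠ H z) := by
  have heb : e ∈ closedBall (0 : ℂ) 1 := mem_closedBall_zero_iff.2 he.le
  have a1 : ∀ᶠ z in 𝓝[closedBall (0 : ℂ) 1] e, G1 z - G2 z ≠ 0 :=
    ((c1.sub c2) e heb).eventually_ne (sub_ne_zero.2 h1)
  have hs : {z : ℂ | ‖z‖ = 1} ⊆ closedBall (0 : ℂ) 1 := fun z hz =>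
    mem_closedBall_zero_iff.2 (le_of_eq hz)
  have hs2 : {z : ℂ | ‖z‖ = 1} ⊆ {z | 1 ≤ ‖z‖ ∧ ‖z‖ ≤ 2} := fun z hz => by
    have : ‖z‖ = 1 := hz
    exact ⟨this.ge, by linarith⟩
  have a2 : ∀ᶠ z in 𝓝[{z : ℂ | ‖z‖ = 1}] e, G1 z - H z ≠ 0 :=
    (((c1.mono hs).sub (cH.mono hs2)) e he).eventually_ne (sub_ne_zero.2 h2)
  rw [eventually_nhdsWithin_iff, Metric.eventually_nhds_iff] at a1 a2
  obtain ⟨ρ1, h3, h4⟩ := a1
  obtain ⟨ρ2, h5, h6⟩ := a2
  refine ⟨min ρ1 ρ2, lt_min h3 h5, fun z hz => ⟨fun hz1 => ?_, fun hz1 => ?_⟩⟩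
  · refine sub_ne_zero.1 (h4 ?_ (mem_closedBall_zero_iff.2 hz1))
    rw [dist_eq_norm]
    exact hz.trans_le (min_le_left _ _)
  · refine sub_ne_zero.1 (h6 ?_ hz1)
    rw [dist_eq_norm]
    exact hz.trans_le (min_le_right _ _)

theorem nice_deriv {F F' : ℂ → ℂ} (hF : Nice 0 1 F F') {c : ℂ} (hc : ‖c‖ = 1) :
    HasDerivWithinAt F (F' c) (closedBall 0 1) c := by
  set s : Set ℂ := ball (0 : ℂ) 1 ∩ ball c 1 with hs
  have hso : IsOpen s := isOpen_ball.inter isOpen_ball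
  have hsc : Convex ℝ s := (convex_ball _ _).inter (convex_ball _ _)
  have hcl : closure s ⊆ closedBall (0 : ℂ) 1 :=
    closure_minimal (fun z hz => ball_subset_closedBall hz.1) isClosed_closedBall
  have hF1 : ContinuousOn F (closedBall 0 1) := disc_eq ▸ hF.cont
  have hF2 : ContinuousOn F' (closedBall 0 1) := disc_eq ▸ hF.cont'
  have hpos : ∀ z ∈ s, 0 < ‖z‖ ∧ ‖z‖ < 1 := by
    intro z hz
    refine ⟨norm_pos_iff.2 ?_, mem_ball_zero_iff.1 hz.1⟩
    rintro rfl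
    have := hz.2
    rw [mem_ball, dist_zero_left, hc] at this
    exact lt_irrefl _ this
  have hder : ∀ z ∈ s, HasFDerivAt F
      ((ContinuousLinearMap.toSpanSingleton ℂ (F' z)).restrictScalars ℝ) z := fun z hz =>
    (hF.der z (hpos z hz).1 (hpos z hz).2).hasFDerivAt.restrictScalars ℝ
  have hcont : Continuous fun w : ℂ =>
      (ContinuousLinearMap.toSpanSingleton ℂ w).restrictScalars ℝ := by
    have h1 : Continuous fun w : ℂ => ContinuousLinearMap.toSpanSingleton ℂ w := by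
      have : (fun w : ℂ => ContinuousLinearMap.toSpanSingleton ℂ w) =
          fun w : ℂ => w • (ContinuousLinearMap.id ℂ ℂ) := by
        funext w
        ext
        simp
      rw [this]
      fun_prop
    exact (ContinuousLinearMap.restrictScalarsL ℂ ℂ ℂ ℝ ℝ).continuous.comp h1
  have key : HasFDerivWithinAt F
      ((ContinuousLinearMap.toSpanSingleton ℂ (F' c)).restrictScalars ℝ) (closure s) c := by
    refine hasFDerivWithinAt_closure_of_tendsto_fderiv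
      (fun z hz => (hder z hz).differentiableAt.differentiableWithinAt) hsc hso ?_ ?_
    · intro y hy
      exact (hF1 y (hcl hy)).mono (fun z hz => ball_subset_closedBall hz.1)
    · have h1 : Tendsto F' (𝓝[s] c) (𝓝 (F' c)) :=
        (hF2 c (mem_closedBall_zero_iff.2 hc.le)).mono (fun z hz => ball_subset_closedBall hz.1)
      have h2 := (hcont.tendsto (F' c)).comp h1
      refine h2.congr' ?_
      filter_upwards [self_mem_nhdsWithin] with z hz
      exact (hder z hz).fderiv.symm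
  have key2 : HasFDerivWithinAt F (ContinuousLinearMap.toSpanSingleton ℂ (F' c)) (closure s) c :=
    key.of_restrictScalars ℝ rfl
  have key3 : HasDerivWithinAt F (F' c) (closure s) c := key2
  refine key3.mono_of_mem_nhdsWithin ?_
  rw [mem_nhdsWithin]
  refine ⟨ball c 1, isOpen_ball, mem_ball_self one_pos, ?_⟩
  rintro z ⟨hz1, hz2⟩
  have h1 : z ∈ ball c 1 ∩ closure (ball (0 : ℂ) 1) := by
    refine ⟨hz1, ?_⟩
    rwa [closure_ball (0 : ℂ) one_ne_zero]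
  have h2 := isOpen_ball.inter_closure h1
  rwa [inter_comm] at h2

theorem ex_cont : Continuous ex := by
  unfold ex
  fun_prop

theorem ex_inj {s t : ℝ} (h : ex s = ex t) (hst : |s - t| < 1) : s = t := by
  unfold ex at h
  rw [Complex.exp_eq_exp_iff_exists_int] at h
  obtain ⟨n, hn⟩ := h
  have hpi : (2 * (Real.pi : ℂ) * Complex.I) ≠ 0 := by
    simp [Real.pi_ne_zero]
  have h1 : (s : ℂ) = t + n := by
    have : (2 * (Real.pi : ℂ) * Complex.I) * s = (2 * (Real.pi : ℂ) * Complex.I) * (t + n) := by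
      linear_combination hn
    exact mul_left_cancel₀ hpi this
  have h2 : s = t + n := by exact_mod_cast h1
  have h3 : |(n : ℝ)| < 1 := by
    have : s - t = n := by linarith
    rwa [this] at hst
  have h4 : |n| < 1 := by exact_mod_cast h3
  have h5 : n = 0 := Int.abs_lt_one_iff.1 h4
  rw [h2, h5]
  simp

theorem KC_norm {z : ℂ} (hz : z ∈ KC) : ‖z‖ = 1 := by
  obtain ⟨x, -, rfl⟩ := hz
  exact norm_ex x

theorem key_supp (hCAN : S_CAN) (hTRA : S_TRA) (hGR : S_GR) {P P' q q' M M' : ℂ → ℂ}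
    (hD : Dat P P' q q' M M') {x0 : ℝ} (hx0 : x0 ∈ KK) {U V : Set E} (hU : IsOpen U)
    (hVU : V ⊆ U) {T1 : F2 → ℝ} (hT1 : CurrentIn U T1)
    (hZ : ∀ θ, Form2 U θ → Disjoint (tsupport θ) (ZZ P (fun z => P z - q z) M) → T1 θ = 0)
    (hb : ∀ η, Form1 U η → T1 (d η) = 0) {r : ℝ} (hr : 0 < r)
    (hin : ∀ z ∈ closedBall (0 : ℂ) 1 ∩ ball (ex x0) r, pt z (P z) ∈ V ∧ pt z (P z - q z) ∈ V)
    {z : ℂ} (hz : z ∈ ball (0 : ℂ) 1 ∩ ball (ex x0) r) :
    pt z (P z) ∈ supp V (fun θ => TTT P (fun z => P z - q z) M θ - T1 θ) ∧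
    pt z (P z - q z) ∈ supp V (fun θ => TTT P (fun z => P z - q z) M θ - T1 θ) := by
  obtain ⟨hKc, hKs, -, -, h01, hloc, hout, hg0, hg1⟩ := hCAN
  have cP : ContinuousOn P (closedBall 0 1) := disc_eq ▸ hD.nP.cont
  have nQ := nice_sub hD.nP hD.nq
  have cQ : ContinuousOn (fun z => P z - q z) (closedBall 0 1) := disc_eq ▸ nQ.cont
  have hne : ∀ z ∈ ball (0 : ℂ) 1, P z ≠ P z - q z := by
    intro z hz h
    have h1 : ‖z‖ < 1 := mem_ball_zero_iff.1 hz
    refine hD.qne z h1.le (fun h2 => ?_) (by linear_combination h)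
    rw [KC_norm h2] at h1
    exact lt_irrefl _ h1
  -- points near `x0` on the circle
  have hnear : ∃ δ > 0, δ ≤ 1 / 4 ∧ ∀ t : ℝ, |t - x0| < δ → ‖ex t - ex x0‖ < r := by
    have h1 := Metric.continuousAt_iff.1 (ex_cont.continuousAt (x := x0)) r hr
    obtain ⟨δ, h2, h3⟩ := h1
    refine ⟨min δ (1 / 4), lt_min h2 (by norm_num), min_le_right _ _, fun t ht => ?_⟩
    have h4 := h3 (x := t) (by
      rw [Real.dist_eq]
      exact ht.trans_le (min_le_left _ _))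
    rwa [dist_eq_norm] at h4
  obtain ⟨δ, hδ, hδ4, hδr⟩ := hnear
  have hx0' := hKs hx0
  have htK : ∀ t : ℝ, |t - x0| < δ → t ∉ KK → ex t ∉ KC := by
    rintro t ht htK ⟨s, hs, hst⟩
    have hs' := hKs hs
    have h1 : s = t := by
      refine ex_inj hst ?_
      rw [abs_lt] at ht ⊢
      constructor <;> linarith [hs'.1, hs'.2, hx0'.1, hx0'.2]
    exact htK (h1 ▸ hs)
  have htb : ∀ t : ℝ, |t - x0| < δ → -(1 / 2) ≤ t ∧ t ≤ 1 / 2 := by
    intro t ht
    rw [abs_lt] at ht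
    constructor <;> linarith [hx0'.1, hx0'.2]
  constructor
  · obtain ⟨t, ht1, ht2, ht3⟩ := hg1 x0 hx0 δ hδ
    have hq : q (ex t) ≠ 0 := hD.qne _ (norm_ex t).le (htK t ht1 ht2)
    have hpm := hD.pm t (htb t ht1).1 (htb t ht1).2
    rw [ht3] at hpm
    have h1 : P (ex t) ≠ P (ex t) - q (ex t) := by
      intro h
      exact hq (by linear_combination h)
    have h2 : P (ex t) ≠ M (ex t) := by
      intro h
      rw [h, sub_self, Complex.ofReal_one, one_mul] at hpm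
      exact hq hpm.symm
    obtain ⟨ρ, hρ, hed⟩ := edge cP cQ hD.nM.cont (norm_ex t) h1 h2
    exact supp_mem hTRA hGR hU hVU hT1 hZ hb hD.nP nQ hD.nM hne (fun z hz => (hin z hz).1)
      (norm_ex t) (hδr t ht1) hρ hed hz
  · obtain ⟨t, ht1, ht2, ht3⟩ := hg0 x0 hx0 δ hδ
    have hq : q (ex t) ≠ 0 := hD.qne _ (norm_ex t).le (htK t ht1 ht2)
    have hpm := hD.pm t (htb t ht1).1 (htb t ht1).2
    rw [ht3, Complex.ofReal_zero, zero_mul] at hpm
    have h1 : P (ex t) - q (ex t) ≠ P (ex t) := by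
      intro h
      exact hq (by linear_combination -h)
    have h2 : P (ex t) - q (ex t) ≠ M (ex t) := by
      intro h
      exact hq (by linear_combination hpm - h)
    obtain ⟨ρ, hρ, hed⟩ := edge cQ cP hD.nM.cont (norm_ex t) h1 h2
    rw [TTT_swap]
    refine supp_mem hTRA hGR hU hVU hT1 (fun θ h1 h2 => hZ θ h1 ?_) hb nQ hD.nP hD.nM
      (fun z hz h => hne z hz h.symm) (fun z hz => (hin z hz).2) (norm_ex t) (hδr t ht1) hρ hed hz
    rwa [ZZ_swap] at h2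

theorem key (hCAN : S_CAN) (hTRA : S_TRA) (hGR : S_GR) (hEMB : S_EMB) {P P' q q' M M' : ℂ → ℂ}
    (hD : Dat P P' q q' M M') {x0 : ℝ} (hx0 : x0 ∈ KK) {U : Set E} (hU : IsOpen U)
    {T1 : F2 → ℝ} (hT1 : CurrentIn U T1)
    (hZ : ∀ θ, Form2 U θ → Disjoint (tsupport θ) (ZZ P (fun z => P z - q z) M) → T1 θ = 0)
    (hb : ∀ η, Form1 U η → T1 (d η) = 0) :
    ¬ RegAt U (fun θ => TTT P (fun z => P z - q z) M θ - T1 θ) (pt (ex x0) (P (ex x0))) := by
  rintro ⟨V, hV, hpV, hVU, Ξ, hΞ, hsub⟩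
  set c := ex x0 with hc
  have hcn : ‖c‖ = 1 := norm_ex x0
  have hcb : c ∈ closedBall (0 : ℂ) 1 := mem_closedBall_zero_iff.2 hcn.le
  have hqc : q c = 0 := hD.q0 x0 hx0
  have cP : ContinuousOn P (closedBall 0 1) := disc_eq ▸ hD.nP.cont
  have nQ := nice_sub hD.nP hD.nq
  have cq : ContinuousOn q (closedBall 0 1) := disc_eq ▸ hD.nq.cont
  have cQ : ContinuousOn (fun z => P z - q z) (closedBall 0 1) := disc_eq ▸ nQ.cont
  -- continuity of the graphs
  have near : ∀ W : Set E, IsOpen W → pt c (P c) ∈ W → ∃ r > 0,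
      ∀ z ∈ closedBall (0 : ℂ) 1 ∩ ball c r, pt z (P z) ∈ W ∧ pt z (P z - q z) ∈ W := by
    intro W hW hpW
    have g1 : ContinuousWithinAt (fun z => pt z (P z)) (closedBall 0 1) c :=
      pt_cont.continuousAt.comp_continuousWithinAt (continuousWithinAt_id.prodMk (cP c hcb))
    have g2 : ContinuousWithinAt (fun z => pt z (P z - q z)) (closedBall 0 1) c :=
      pt_cont.continuousAt.comp_continuousWithinAt (continuousWithinAt_id.prodMk (cQ c hcb))
    have hpW2 : pt c (P c - q c) ∈ W := by rwa [hqc, sub_zero]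
    have e1 := g1.preimage_mem_nhdsWithin (hW.mem_nhds hpW)
    have e2 := g2.preimage_mem_nhdsWithin (hW.mem_nhds hpW2)
    have e3 := inter_mem e1 e2
    rw [mem_nhdsWithin_iff] at e3
    obtain ⟨r, hr, h⟩ := e3
    exact ⟨r, hr, fun z hz => h ⟨hz.2, hz.1⟩⟩
  obtain ⟨r, hr, hin⟩ := near V hV hpV
  have hsupp := fun z hz => key_supp hCAN hTRA hGR hD hx0 hU hVU hT1 hZ hb hr hin (z := z) hz
  -- the point itself is in the support
  have hps : pt c (P c) ∈ supp V (fun θ => TTT P (fun z => P z - q z) M θ - T1 θ) := by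
    refine ⟨hpV, fun W hW hpW hWV => ?_⟩
    obtain ⟨r2, hr2, hin2⟩ := near W hW hpW
    have hcl : c ∈ closure (ball (0 : ℂ) 1) := by rwa [closure_ball (0 : ℂ) one_ne_zero]
    obtain ⟨z, hz1, hz2⟩ := Metric.mem_closure_iff.1 hcl (min r r2) (lt_min hr hr2)
    rw [dist_comm] at hz2
    have h1 := (hsupp z ⟨hz1, hz2.trans_le (min_le_left _ _)⟩).1
    exact h1.2 W hW (hin2 z ⟨ball_subset_closedBall hz1, hz2.trans_le (min_le_right _ _)⟩).1 hWV
  obtain ⟨V', hV', hpV', hVV', Φ, hΦ, hΦs, hΞV⟩ := hΞ.2 _ (hsub hps)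
  obtain ⟨r3, hr3, hin3⟩ := near V' hV' hpV'
  refine hEMB c (P' c) V' Φ P q (min r r3) hcn (lt_min hr hr3) hV' hpV' hΦ hΦs
    (nice_deriv hD.nP hcn) ?_ ?_
  · have h1 := (cq c hcb).mono ball_subset_closedBall
    have h2 : Tendsto q (𝓝[ball 0 1] c) (𝓝 (q c)) := h1
    rwa [hqc] at h2
  · rintro z ⟨hz1, hz2⟩
    have hzr : z ∈ ball c r := ball_subset_ball (min_le_left _ _) hz2
    have hzr3 : z ∈ ball c r3 := ball_subset_ball (min_le_right _ _) hz2
    have hz0 : ‖z‖ < 1 := mem_ball_zero_iff.1 hz1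
    have h1 := hsupp z ⟨hz1, hzr⟩
    have h2 := hin3 z ⟨ball_subset_closedBall hz1, hzr3⟩
    refine ⟨hD.qne z hz0.le fun h => ?_, ?_, ?_⟩
    · rw [KC_norm h] at hz0
      exact lt_irrefl _ hz0
    · have h3 : pt z (P z) ∈ Ξ ∩ V' := ⟨hsub h1.1, h2.1⟩
      rw [hΞV] at h3
      exact h3.2
    · have h3 : pt z (P z - q z) ∈ Ξ ∩ V' := ⟨hsub h1.2, h2.2⟩
      rw [hΞV] at h3
      exact h3.2

end Pool.Agent.Y305.BC
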