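import Pool.Agent.Y305.BC.Stm

/-! Cut-off functions and forms. -/

set_option autoImplicit false

open MeasureTheory Metric Set Filter Topology
open scoped ContDiff ENNReal Manifold

namespace Pool.Agent.Y305.BC

theorem ury {A B U : Set E} (hA : IsCompact A) (hB : IsClosed B) (hU : IsOpen U) (hAU : A ⊆ U)
    (hd : Disjoint A B) : ∃ m : E → ℝ, ContDiff ℝ ∞ m ∧ HasCompactSupport m ∧ tsupport m ⊆ U ∧
      (∀ x, 0 ≤ m x) ∧ (∀ x ∈ A, ∀ᶠ y in 𝓝 x, m y = 1) ∧ ∀ x ∈ B, ∀ᶠ y in 𝓝 x, m y = 0 := by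
  have hW : IsOpen (U ∩ Bᶜ) := hU.inter hB.isOpen_compl
  have hAW : A ⊆ U ∩ Bᶜ := fun x hx => ⟨hAU hx, fun h => disjoint_left.1 hd hx h⟩
  obtain ⟨L, hL, hAL, hLW⟩ := exists_compact_between hA hW hAW
  obtain ⟨f, h0, h1, hf⟩ := exists_contMDiffMap_zero_one_nhds_of_isClosed (𝓘(ℝ, E)) (n := (⊤ : ℕ∞))
    (isOpen_interior (s := L)).isClosed_compl hA.isClosed
    (disjoint_left.2 fun x hx hx2 => hx (hAL hx2))
  have hz : ∀ x ∉ L, f x = 0 := by
    intro x hx
    exact h0.self_of_nhdsSet _ fun h => hx (interior_subset h)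
  have hts : tsupport (f : E → ℝ) ⊆ L := by
    refine closure_minimal (fun x hx => ?_) hL.isClosed
    by_contra h
    exact hx (hz x h)
  refine ⟨f, ?_, hL.of_isClosed_subset (isClosed_tsupport _) hts, ?_, fun x => (hf x).1, ?_, ?_⟩
  · exact f.contMDiff.contDiff
  · exact hts.trans (hLW.trans inter_subset_left)
  · intro x hx
    exact (eventually_nhdsSet_iff_forall.1 h1) x hx
  · intro x hx
    have : x ∉ L := fun h => (hLW h).2 hx
    filter_upwards [hL.isClosed.isOpen_compl.mem_nhds this] with y hy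
    exact hz y hy

theorem fst_cont : Continuous (fun x : E => x.fst) := WithLp.continuous_fst ..

theorem fst_smooth : ContDiff ℝ ∞ (fun x : E => x.fst) :=
  (WithLp.fstL 2 ℝ ℂ ℂ).contDiff

theorem vol_alt (v : E) : vol v v = 0 := by
  rw [vol_apply]; ring

theorem wf_val (ψ : ℂ → ℝ) (m : E → ℝ) (x v w : E) :
    wf ψ m x v w = ψ x.fst * m x * vol v w := rfl

theorem wf_z {ψ : ℂ → ℝ} {m : E → ℝ} {x : E} (h : ψ x.fst * m x = 0) : wf ψ m x = 0 := by
  ext v w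
  rw [wf_val, h, zero_mul]
  rfl

theorem wf_smooth {ψ : ℂ → ℝ} {m : E → ℝ} (hψ : ContDiff ℝ ∞ ψ) (hm : ContDiff ℝ ∞ m) :
    ContDiff ℝ ∞ (wf ψ m) := by
  have h1 : ContDiff ℝ ∞ (fun x : E => ψ x.fst * m x) := (hψ.comp fst_smooth).mul hm
  have h2 : ContDiff ℝ ∞ (ContinuousLinearMap.toSpanSingleton ℝ vol) :=
    ContinuousLinearMap.contDiff _
  have h3 : wf ψ m = fun x : E => ContinuousLinearMap.toSpanSingleton ℝ vol (ψ x.fst * m x) := by
    ext x v w
    rfl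
  rw [h3]
  exact h2.comp h1

theorem wf_tsupport (ψ : ℂ → ℝ) (m : E → ℝ) : tsupport (wf ψ m) ⊆ tsupport m := by
  refine closure_mono fun x hx => ?_
  intro h
  apply hx
  exact wf_z (by rw [h, mul_zero])

theorem wf_tsupport' (ψ : ℂ → ℝ) (m : E → ℝ) {x : E} (hx : x ∈ tsupport (wf ψ m)) :
    x.fst ∈ tsupport ψ := by
  have hcl : IsClosed {x : E | x.fst ∈ tsupport ψ} := (isClosed_tsupport ψ).preimage fst_cont
  refine closure_minimal (fun y hy => ?_) hcl hx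
  refine subset_tsupport ψ fun h => hy ?_
  exact wf_z (by rw [h, zero_mul])

theorem wf_form {U : Set E} {ψ : ℂ → ℝ} {m : E → ℝ} (hψ : ContDiff ℝ ∞ ψ) (hm : ContDiff ℝ ∞ m)
    (hc : HasCompactSupport m) (hU : tsupport m ⊆ U) : Form2 U (wf ψ m) := by
  refine ⟨wf_smooth hψ hm, ?_, (wf_tsupport ψ m).trans hU, fun x v => ?_⟩
  · exact hc.isCompact.of_isClosed_subset (isClosed_tsupport _) (wf_tsupport ψ m)
  · show ((ψ x.fst * m x) • vol) v v = 0
    rw [_root_.smul_apply, _root_.smul_apply, vol_alt, smul_zero]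

/-- The form only matters near the sheets. -/
theorem wf_eq {U Z : Set E} {T : F2 → ℝ} (hT : CurrentIn U T)
    (hZ : ∀ θ, Form2 U θ → Disjoint (tsupport θ) Z → T θ = 0) {ψ : ℂ → ℝ} {m m' : E → ℝ}
    (hψ : ContDiff ℝ ∞ ψ) (hm : ContDiff ℝ ∞ m) (hc : HasCompactSupport m) (hU : tsupport m ⊆ U)
    (hm' : ContDiff ℝ ∞ m') (hc' : HasCompactSupport m') (hU' : tsupport m' ⊆ U)
    (h : ∀ x ∈ Z, x.fst ∈ tsupport ψ → ∀ᶠ y in 𝓝 x, m y = m' y) : T (wf ψ m) = T (wf ψ m') := by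
  have h1 := wf_form hψ hm hc hU
  have h2 := wf_form hψ hm' hc' hU'
  have h3 := hT.lin 1 (-1) _ _ h1 h2
  have hsub : (1:ℝ) • wf ψ m + (-1:ℝ) • wf ψ m' = wf ψ (fun x => m x - m' x) := by
    ext x v w
    simp only [wf, Pi.add_apply, Pi.smul_apply, _root_.add_apply,
      _root_.smul_apply, smul_eq_mul]
    ring
  have hcc : HasCompactSupport (fun x => m x - m' x) := hc.sub hc'
  have hUU : tsupport (fun x => m x - m' x) ⊆ U := by
    refine (tsupport_sub m m').trans (union_subset hU hU')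
  have h4 : T (wf ψ fun x => m x - m' x) = 0 := by
    refine hZ _ (wf_form hψ (hm.sub hm') hcc hUU) ?_
    rw [disjoint_left]
    intro x hx hxZ
    have h5 := h x hxZ (wf_tsupport' _ _ hx)
    rw [tsupport, mem_closure_iff_frequently] at hx
    refine hx ?_
    filter_upwards [h5] with y hy h6
    apply h6
    exact wf_z (by rw [hy, sub_self, mul_zero])
  rw [hsub, h4] at h3
  linarith

theorem wf_zero {U Z : Set E} {T : F2 → ℝ}
    (hZ : ∀ θ, Form2 U θ → Disjoint (tsupport θ) Z → T θ = 0) {ψ : ℂ → ℝ} {m : E → ℝ}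
    (hψ : ContDiff ℝ ∞ ψ) (hm : ContDiff ℝ ∞ m) (hc : HasCompactSupport m) (hU : tsupport m ⊆ U)
    (h : ∀ x ∈ Z, x.fst ∈ tsupport ψ → ∀ᶠ y in 𝓝 x, m y = 0) : T (wf ψ m) = 0 := by
  refine hZ _ (wf_form hψ hm hc hU) ?_
  rw [disjoint_left]
  intro x hx hxZ
  have h5 := h x hxZ (wf_tsupport' _ _ hx)
  rw [tsupport, mem_closure_iff_frequently] at hx
  refine hx ?_
  filter_upwards [h5] with y hy h6
  apply h6
  exact wf_z (by rw [hy, mul_zero])

end Pool.Agent.Y305.BC
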