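import Pool.Agent.Y305.BC.Sh1

/-! Sheets: a boundaryless current supported on the sheets vanishes near a sheet which ends. -/

set_option autoImplicit false

open MeasureTheory Metric Set Filter Topology
open scoped ContDiff ENNReal

namespace Pool.Agent.Y305.BC

/-- the union of the three sheets -/
def ZZ (G1 G2 H : ℂ → ℂ) : Set E :=
  {x | (‖x.fst‖ ≤ 1 ∧ (x.snd = G1 x.fst ∨ x.snd = G2 x.fst)) ∨
    (1 ≤ ‖x.fst‖ ∧ ‖x.fst‖ ≤ 2 ∧ x.snd = H x.fst)}

theorem pt_eta (x : E) : pt x.fst x.snd = x := rfl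

theorem pt_cont : Continuous (fun p : ℂ × ℂ => pt p.1 p.2) :=
  WithLp.prod_continuous_toLp 2 ℂ ℂ

theorem graph_compact {G : ℂ → ℂ} {N : Set ℂ} (hN : IsCompact N) (hG : ContinuousOn G N) :
    IsCompact ((fun z => pt z (G z)) '' N) := by
  refine hN.image_of_continuousOn ?_
  exact pt_cont.comp_continuousOn (continuousOn_id.prodMk hG)

theorem mem_graph {G : ℂ → ℂ} {N : Set ℂ} {x : E} (h1 : x.fst ∈ N) (h2 : x.snd = G x.fst) :
    x ∈ (fun z => pt z (G z)) '' N := by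
  refine ⟨x.fst, h1, ?_⟩
  show pt x.fst (G x.fst) = x
  rw [← h2]
  rfl

/-- the open set where `m` is locally constant -/
def OO (m : E → ℝ) : Set E := {x | ∀ᶠ y in 𝓝 x, fderiv ℝ m y = 0}

theorem OO_open (m : E → ℝ) : IsOpen (OO m) := by
  rw [isOpen_iff_mem_nhds]
  intro x hx
  exact eventually_eventually_nhds.2 hx

theorem OO_mem {m : E → ℝ} {x : E} {a : ℝ} (h : ∀ᶠ y in 𝓝 x, m y = a) : x ∈ OO m := by
  have h2 := eventually_eventually_nhds.2 h
  show ∀ᶠ y in 𝓝 x, fderiv ℝ m y = 0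
  filter_upwards [h2] with y hy
  have : m =ᶠ[𝓝 y] fun _ => a := hy
  rw [this.fderiv_eq, fderiv_fun_const]
  rfl

theorem tsup_shift (ψ : ℂ → ℝ) (v : ℂ) {z : ℂ} (h : z ∈ tsupport (fun z => ψ (z - v))) :
    z - v ∈ tsupport ψ := by
  have hcl : IsClosed {z : ℂ | z - v ∈ tsupport ψ} :=
    (isClosed_tsupport ψ).preimage (continuous_id.sub continuous_const)
  have hsub : Function.support (fun z => ψ (z - v)) ⊆ {z : ℂ | z - v ∈ tsupport ψ} :=
    fun y hy => subset_tsupport ψ hy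
  exact closure_minimal hsub hcl h

theorem shift_smooth {ψ : ℂ → ℝ} (h : ContDiff ℝ ∞ ψ) (v : ℂ) :
    ContDiff ℝ ∞ (fun z => ψ (z - v)) := h.comp (contDiff_id.sub contDiff_const)

theorem shift_compact {ψ : ℂ → ℝ} (h : HasCompactSupport ψ) (v : ℂ) :
    HasCompactSupport (fun z => ψ (z - v)) :=
  h.comp_homeomorph (Homeomorph.subRight v)

theorem van (hTRA : S_TRA) {U : Set E} {T : F2 → ℝ} {G1 G2 H : ℂ → ℂ} (hU : IsOpen U)
    (hT : CurrentIn U T)
    (hZ : ∀ θ, Form2 U θ → Disjoint (tsupport θ) (ZZ G1 G2 H) → T θ = 0)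
    (hb : ∀ η, Form1 U η → T (d η) = 0)
    (c1 : ContinuousOn G1 (closedBall 0 1)) (c2 : ContinuousOn G2 (closedBall 0 1))
    (cH : ContinuousOn H {z | 1 ≤ ‖z‖ ∧ ‖z‖ ≤ 2})
    (hne : ∀ z ∈ ball (0 : ℂ) 1, G1 z ≠ G2 z) {c : ℂ} {r : ℝ}
    (hin : ∀ z ∈ closedBall (0 : ℂ) 1 ∩ ball c r, pt z (G1 z) ∈ U) {e : ℂ} (he : ‖e‖ = 1)
    (hec : ‖e - c‖ < r) {ρ : ℝ} (hρ : 0 < ρ)
    (hed : ∀ z, ‖z - e‖ < ρ → (‖z‖ ≤ 1 → G1 z ≠ G2 z) ∧ (‖z‖ = 1 → G1 z ≠ H z))
    {z1 : ℂ} (hz1 : z1 ∈ ball (0 : ℂ) 1 ∩ ball c r) :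
    ∃ δ > 0, closedBall z1 δ ⊆ ball (0 : ℂ) 1 ∩ ball c r ∧
      ∀ (ψ : ℂ → ℝ) (m : E → ℝ), ContDiff ℝ ∞ ψ → tsupport ψ ⊆ closedBall z1 δ →
      ContDiff ℝ ∞ m → HasCompactSupport m → tsupport m ⊆ U →
      (∀ x : E, x.fst ∈ tsupport ψ → x.snd = G1 x.fst → ∀ᶠ y in 𝓝 x, m y = 1) →
      (∀ x : E, x.fst ∈ tsupport ψ → x.snd = G2 x.fst → ∀ᶠ y in 𝓝 x, m y = 0) →
      T (wf ψ m) = 0 := by
  -- choice of s1
  obtain ⟨s1, hs1, hs1a, hs1b, hs1c⟩ : ∃ s1 : ℝ, 0 < s1 ∧ 2 * s1 < ρ ∧ 2 * s1 + ‖e - c‖ < r ∧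
      s1 < 1 / 2 := by
    refine ⟨min (ρ / 4) (min ((r - ‖e - c‖) / 4) (1 / 4)), ?_, ?_, ?_, ?_⟩
    · refine lt_min (by linarith) (lt_min (by linarith) (by norm_num))
    · have := min_le_left (ρ / 4) (min ((r - ‖e - c‖) / 4) (1 / 4))
      linarith
    · have := (min_le_right (ρ / 4) (min ((r - ‖e - c‖) / 4) (1 / 4))).trans (min_le_left _ _)
      linarith
    · have := (min_le_right (ρ / 4) (min ((r - ‖e - c‖) / 4) (1 / 4))).trans (min_le_right _ _)
      linarith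
  set zm : ℂ := (1 - s1 : ℝ) • e with hzm
  have hzme : zm - e = (-s1 : ℝ) • e := by
    rw [hzm, sub_smul, one_smul, neg_smul]; ring
  have hnzme : ‖zm - e‖ = s1 := by
    rw [hzme, norm_smul, he, mul_one, Real.norm_eq_abs, abs_neg, abs_of_pos hs1]
  have hnzm : ‖zm‖ = 1 - s1 := by
    rw [hzm, norm_smul, he, mul_one, Real.norm_eq_abs, abs_of_pos (by linarith)]
  have hzmin : zm ∈ ball (0 : ℂ) 1 ∩ ball c r := by
    constructor
    · rw [mem_ball_zero_iff, hnzm]; linarith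
    · rw [mem_ball, dist_eq_norm]
      have : zm - c = (zm - e) + (e - c) := by ring
      rw [this]
      refine (norm_add_le _ _).trans_lt ?_
      rw [hnzme]; linarith
  have hconv : Convex ℝ (ball (0 : ℂ) 1 ∩ ball c r) := (convex_ball _ _).inter (convex_ball _ _)
  have hopen : IsOpen (ball (0 : ℂ) 1 ∩ ball c r) := isOpen_ball.inter isOpen_ball
  have hseg : segment ℝ z1 zm ⊆ ball (0 : ℂ) 1 ∩ ball c r := hconv.segment_subset hz1 hzmin
  have hsegc : IsCompact (segment ℝ z1 zm) := by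
    rw [segment_eq_image]
    exact isCompact_Icc.image (by fun_prop)
  obtain ⟨δ0, hδ0, hδ0s⟩ := hsegc.exists_cthickening_subset_open hopen hseg
  set δ := min (δ0 / 2) (s1 / 2) with hδ
  have hδp : 0 < δ := lt_min (by linarith) (by linarith)
  have hδ1 : δ < δ0 := (min_le_left _ _).trans_lt (by linarith)
  have hδ2 : δ < s1 := (min_le_right _ _).trans_lt (by linarith)
  -- thickened segment
  set N : Set ℂ := cthickening δ (segment ℝ z1 zm) with hN
  have hNs : N ⊆ ball (0 : ℂ) 1 ∩ ball c r :=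
    (cthickening_mono hδ1.le _).trans hδ0s
  have hNc : IsCompact N := hsegc.cthickening
  have hNcl : N ⊆ closedBall (0 : ℂ) 1 := fun z hz => ball_subset_closedBall (hNs hz).1
  have hz1N : closedBall z1 δ ⊆ N :=
    closedBall_subset_cthickening (left_mem_segment ℝ z1 zm) δ
  refine ⟨δ, hδp, hz1N.trans hNs, ?_⟩
  intro ψ m hψ hψs hm hmc hmU hm1 hm0
  have hψc : HasCompactSupport ψ :=
    (isCompact_closedBall z1 δ).of_isClosed_subset (isClosed_tsupport ψ) hψs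
  -- first cut-off
  set A1 : Set E := (fun z => pt z (G1 z)) '' N with hA1
  set B1 : Set E := (fun z => pt z (G2 z)) '' N with hB1
  have hA1c : IsCompact A1 := graph_compact hNc (c1.mono hNcl)
  have hB1c : IsCompact B1 := graph_compact hNc (c2.mono hNcl)
  have hA1U : A1 ⊆ U := by
    rintro _ ⟨z, hz, rfl⟩
    exact hin z ⟨hNcl hz, (hNs hz).2⟩
  have hAB1 : Disjoint A1 B1 := by
    rw [disjoint_left]
    rintro _ ⟨z, hz, rfl⟩ ⟨w, hw, hwz⟩
    have h1 : w = z := congrArg (fun x : E => x.fst) hwz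
    have h2 : G2 w = G1 z := congrArg (fun x : E => x.snd) hwz
    subst h1
    exact hne w (hNs hw).1 h2.symm
  obtain ⟨m1, m1s, m1c, m1U, -, m1A, m1B⟩ := ury hA1c hB1c.isClosed hU hA1U hAB1
  -- second cut-off
  set N2 : Set ℂ := closedBall e (2 * s1) with hN2
  have hN2c : IsCompact N2 := isCompact_closedBall _ _
  have hN2r : N2 ⊆ ball c r := by
    intro z hz
    rw [mem_closedBall, dist_eq_norm] at hz
    rw [mem_ball, dist_eq_norm]
    have : z - c = (z - e) + (e - c) := by ring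
    rw [this]
    refine (norm_add_le _ _).trans_lt ?_
    linarith
  have hN2ρ : ∀ z ∈ N2, ‖z - e‖ < ρ := by
    intro z hz
    rw [mem_closedBall, dist_eq_norm] at hz
    linarith
  have hN22 : ∀ z ∈ N2, ‖z‖ ≤ 2 := by
    intro z hz
    rw [mem_closedBall, dist_eq_norm] at hz
    have h1 : ‖z‖ ≤ ‖z - e‖ + ‖e‖ := by
      have := norm_add_le (z - e) e
      rwa [sub_add_cancel] at this
    rw [he] at h1
    linarith
  have hann : IsClosed {z : ℂ | 1 ≤ ‖z‖} := isClosed_le continuous_const continuous_norm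
  set A2 : Set E := (fun z => pt z (G1 z)) '' (N2 ∩ closedBall 0 1) with hA2
  set B2 : Set E := (fun z => pt z (G2 z)) '' (N2 ∩ closedBall 0 1) with hB2
  set B3 : Set E := (fun z => pt z (H z)) '' (N2 ∩ {z : ℂ | 1 ≤ ‖z‖}) with hB3
  have hA2c : IsCompact A2 :=
    graph_compact (hN2c.inter_right isClosed_closedBall) (c1.mono inter_subset_right)
  have hB2c : IsCompact B2 :=
    graph_compact (hN2c.inter_right isClosed_closedBall) (c2.mono inter_subset_right)
  have hB3c : IsCompact B3 :=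
    graph_compact (hN2c.inter_right hann) (cH.mono fun z hz => ⟨hz.2, hN22 z hz.1⟩)
  have hA2U : A2 ⊆ U := by
    rintro _ ⟨z, hz, rfl⟩
    exact hin z ⟨hz.2, hN2r hz.1⟩
  have hAB2 : Disjoint A2 (B2 ∪ B3) := by
    rw [disjoint_left]
    rintro _ ⟨z, hz, rfl⟩ (⟨w, hw, hwz⟩ | ⟨w, hw, hwz⟩)
    · have h1 : w = z := congrArg (fun x : E => x.fst) hwz
      have h2 : G2 w = G1 z := congrArg (fun x : E => x.snd) hwz
      subst h1
      exact (hed w (hN2ρ w hw.1)).1 (mem_closedBall_zero_iff.1 hw.2) h2.symm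
    · have h1 : w = z := congrArg (fun x : E => x.fst) hwz
      have h2 : H w = G1 z := congrArg (fun x : E => x.snd) hwz
      subst h1
      exact (hed w (hN2ρ w hw.1)).2 (le_antisymm (mem_closedBall_zero_iff.1 hz.2) hw.2) h2.symm
  obtain ⟨m2, m2s, m2c, m2U, -, m2A, m2B⟩ :=
    ury hA2c (hB2c.union hB3c).isClosed hU hA2U hAB2
  -- the points of the support over `N`
  have key1 : ∀ x ∈ ZZ G1 G2 H, x.fst ∈ N → x ∈ A1 ∨ x ∈ B1 := by
    intro x hx hxN
    have h1 : ‖x.fst‖ < 1 := mem_ball_zero_iff.1 (hNs hxN).1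
    rcases hx with ⟨-, h | h⟩ | ⟨h, -⟩
    · exact Or.inl (mem_graph hxN h)
    · exact Or.inr (mem_graph hxN h)
    · exact absurd h (not_le.2 h1)
  have key2 : ∀ x ∈ ZZ G1 G2 H, x.fst ∈ N2 → x ∈ A2 ∨ x ∈ B2 ∪ B3 := by
    intro x hx hxN
    rcases hx with ⟨h0, h | h⟩ | ⟨h0, -, h⟩
    · exact Or.inl (mem_graph ⟨hxN, mem_closedBall_zero_iff.2 h0⟩ h)
    · exact Or.inr (Or.inl (mem_graph ⟨hxN, mem_closedBall_zero_iff.2 h0⟩ h))
    · exact Or.inr (Or.inr (mem_graph ⟨hxN, h0⟩ h))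
  -- step 0
  have st0 : T (wf ψ m) = T (wf ψ m1) := by
    refine wf_eq hT hZ hψ hm hmc hmU m1s m1c m1U fun x hx hxψ => ?_
    have hxb : x.fst ∈ closedBall z1 δ := hψs hxψ
    have hxN : x.fst ∈ N := hz1N hxb
    rcases key1 x hx hxN with h | h
    · have h3 : x.snd = G1 x.fst := by
        obtain ⟨z, -, rfl⟩ := h
        rfl
      filter_upwards [hm1 x hxψ h3, m1A x h] with y h4 h5
      rw [h4, h5]
    · have h3 : x.snd = G2 x.fst := by
        obtain ⟨z, -, rfl⟩ := h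
        rfl
      filter_upwards [hm0 x hxψ h3, m1B x h] with y h4 h5
      rw [h4, h5]
  -- step 1: translation to `zm`
  have hdis : ∀ {z w : ℂ}, z ∈ closedBall w δ → ∀ {S : Set ℂ}, w ∈ S → z ∈ cthickening δ S :=
    fun {z w} hz {S} hw => closedBall_subset_cthickening hw δ hz
  have st1 : T (wf ψ m1) = T (wf (fun z => ψ (z - (zm - z1))) m1) := by
    refine hTRA U T (ZZ G1 G2 H) hU hT hZ hb ψ m1 (zm - z1) (OO m1) hψ hψc m1s m1c m1U
      (OO_open m1) (fun x hx => hx.self_of_nhds) ?_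
    intro s hs x hx _ hxψ
    have h1 : x.fst - s • (zm - z1) ∈ closedBall z1 δ := hψs hxψ
    have h2 : x.fst ∈ N := by
      refine hdis (w := z1 + s • (zm - z1)) ?_ ?_
      · rw [mem_closedBall, dist_eq_norm] at h1 ⊢
        rwa [sub_sub, add_comm] at h1
      · rw [segment_eq_image']
        exact ⟨s, hs, rfl⟩
    rcases key1 x hx h2 with h | h
    · exact OO_mem (m1A x h)
    · exact OO_mem (m1B x h)
  -- step 2: change of the cut-off
  set ψ1 : ℂ → ℝ := fun z => ψ (z - (zm - z1)) with hψ1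
  have ψ1s : ContDiff ℝ ∞ ψ1 := shift_smooth hψ _
  have ψ1c : HasCompactSupport ψ1 := shift_compact hψc _
  have ψ1t : tsupport ψ1 ⊆ closedBall zm δ := by
    intro z hz
    have h1 := hψs (tsup_shift ψ _ hz)
    rw [mem_closedBall, dist_eq_norm] at h1 ⊢
    have : z - (zm - z1) - z1 = z - zm := by ring
    rwa [this] at h1
  have hzmN : closedBall zm δ ⊆ N :=
    closedBall_subset_cthickening (right_mem_segment ℝ z1 zm) δ
  have hzmN2 : closedBall zm δ ⊆ N2 := by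
    intro z hz
    rw [mem_closedBall, dist_eq_norm] at hz ⊢
    have : z - e = (z - zm) + (zm - e) := by ring
    rw [this]
    refine (norm_add_le _ _).trans ?_
    rw [hnzme]; linarith
  have st2 : T (wf ψ1 m1) = T (wf ψ1 m2) := by
    refine wf_eq hT hZ ψ1s m1s m1c m1U m2s m2c m2U fun x hx hxψ => ?_
    have hxb : x.fst ∈ closedBall zm δ := ψ1t hxψ
    have hxN : x.fst ∈ N := hzmN hxb
    have hxcb : x.fst ∈ closedBall (0 : ℂ) 1 := hNcl hxN
    rcases key1 x hx hxN with h | h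
    · have h3 : x.snd = G1 x.fst := by
        obtain ⟨z, -, rfl⟩ := h
        rfl
      have h6 : x ∈ A2 := mem_graph ⟨hzmN2 hxb, hxcb⟩ h3
      filter_upwards [m1A x h, m2A x h6] with y h4 h5
      rw [h4, h5]
    · have h3 : x.snd = G2 x.fst := by
        obtain ⟨z, -, rfl⟩ := h
        rfl
      have h6 : x ∈ B2 := mem_graph ⟨hzmN2 hxb, hxcb⟩ h3
      filter_upwards [m1B x h, m2B x (Or.inl h6)] with y h4 h5
      rw [h4, h5]
  -- step 3: translation over the edge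
  have st3 : T (wf ψ1 m2) = T (wf (fun z => ψ1 (z - (2 * s1 : ℝ) • e)) m2) := by
    refine hTRA U T (ZZ G1 G2 H) hU hT hZ hb ψ1 m2 ((2 * s1 : ℝ) • e) (OO m2) ψ1s ψ1c m2s m2c m2U
      (OO_open m2) (fun x hx => hx.self_of_nhds) ?_
    intro s hs x hx _ hxψ
    have h1 : x.fst - s • ((2 * s1 : ℝ) • e) ∈ closedBall zm δ := ψ1t hxψ
    have h2 : x.fst ∈ N2 := by
      rw [mem_closedBall, dist_eq_norm] at h1 ⊢
      have h3 : x.fst - e = (x.fst - s • ((2 * s1 : ℝ) • e) - zm) + (s * (2 * s1) - s1 : ℝ) • e := by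
        rw [hzm, sub_smul, sub_smul, one_smul, smul_smul]
        ring
      rw [h3]
      refine (norm_add_le _ _).trans ?_
      rw [norm_smul, he, mul_one, Real.norm_eq_abs]
      have h4 : |s * (2 * s1) - s1| ≤ s1 := by
        rw [abs_le]
        constructor
        · nlinarith [hs.1, hs.2]
        · nlinarith [hs.1, hs.2]
      linarith
    rcases key2 x hx h2 with h | h
    · exact OO_mem (m2A x h)
    · exact OO_mem (m2B x h)
  -- step 4: outside the disc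
  have st4 : T (wf (fun z => ψ1 (z - (2 * s1 : ℝ) • e)) m2) = 0 := by
    refine wf_zero hZ (shift_smooth ψ1s _) m2s m2c m2U fun x hx hxψ => ?_
    have h1 : x.fst - (2 * s1 : ℝ) • e ∈ closedBall zm δ := ψ1t (tsup_shift ψ1 _ hxψ)
    rw [mem_closedBall, dist_eq_norm] at h1
    have h3 : x.fst - (2 * s1 : ℝ) • e - zm = x.fst - (1 + s1 : ℝ) • e := by
      rw [hzm]
      simp only [Complex.real_smul]
      push_cast
      ring
    rw [h3] at h1
    have h5 : ‖(1 + s1 : ℝ) • e‖ = 1 + s1 := by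
      rw [norm_smul, he, mul_one, Real.norm_eq_abs, abs_of_pos (by linarith)]
    have h4 : 1 < ‖x.fst‖ := by
      have h6 : ‖(1 + s1 : ℝ) • e‖ ≤ ‖x.fst‖ + ‖x.fst - (1 + s1 : ℝ) • e‖ := by
        have := norm_sub_le x.fst (x.fst - (1 + s1 : ℝ) • e)
        rwa [sub_sub_cancel] at this
      rw [h5] at h6
      linarith
    have h2 : x.fst ∈ N2 := by
      rw [mem_closedBall, dist_eq_norm]
      have h7 : x.fst - e = (x.fst - (1 + s1 : ℝ) • e) + (s1 : ℝ) • e := by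
        rw [add_smul, one_smul]
        ring
      rw [h7]
      refine (norm_add_le _ _).trans ?_
      rw [norm_smul, he, mul_one, Real.norm_eq_abs, abs_of_pos hs1]
      linarith
    rcases hx with ⟨h0, -⟩ | ⟨h0, -, h⟩
    · exact absurd h0 (not_le.2 h4)
    · exact m2B x (Or.inr (mem_graph ⟨h2, h0⟩ h))
  rw [st0, st1, st2, st3, st4]

end Pool.Agent.Y305.BC
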