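import Pool.Agent.Y305.BC.Sh2

/-! The current of the three sheets near a point of a sheet. -/

set_option autoImplicit false

open MeasureTheory Metric Set Filter Topology
open scoped ContDiff ENNReal

namespace Pool.Agent.Y305.BC

/-- the current of the three sheets -/
noncomputable def TTT (G1 G2 H : ℂ → ℂ) (θ : F2) : ℝ :=
  push (gr 0 1 G1) (rect 0 1) θ + push (gr 0 1 G2) (rect 0 1) θ + push (gr 1 2 H) (rect 1 2) θ

theorem TTT_swap (G1 G2 H : ℂ → ℂ) : TTT G1 G2 H = TTT G2 G1 H := by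
  funext θ
  unfold TTT
  ring

theorem ZZ_swap (G1 G2 H : ℂ → ℂ) : ZZ G1 G2 H = ZZ G2 G1 H := by
  ext x
  unfold ZZ
  simp only [mem_ofPred_eq]
  tauto

theorem rect_open (a b : ℝ) : IsOpen (rect a b) := by
  unfold rect
  have h1 : Continuous fun p : ℂ => p.re := Complex.continuous_re
  have h2 : Continuous fun p : ℂ => p.im := Complex.continuous_im
  exact ((isOpen_lt continuous_const h1).inter (isOpen_lt h1 continuous_const)).inter
    ((isOpen_lt continuous_const h2).inter (isOpen_lt h2 continuous_const))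

theorem norm_ex (x : ℝ) : ‖ex x‖ = 1 := by
  unfold ex
  have h : (2 * (Real.pi : ℂ) * (x : ℂ) * Complex.I) = ((2 * Real.pi * x : ℝ) : ℂ) * Complex.I := by
    push_cast; ring
  rw [h, Complex.norm_exp_ofReal_mul_I]

theorem norm_pol (r x : ℝ) : ‖pol r x‖ = |r| := by
  unfold pol
  rw [norm_mul, norm_ex, mul_one, Complex.norm_real, Real.norm_eq_abs]

theorem gr_rect {a b : ℝ} {F : ℂ → ℂ} {p : ℂ} (hp : p ∈ rect a b) :
    gr a b F p = pt (pol p.re p.im) (F (pol p.re p.im)) := by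
  obtain ⟨⟨h1, h2⟩, -⟩ := hp
  unfold gr
  rw [min_eq_right h2.le, max_eq_right h1.le]

theorem vol_tv (F' : ℂ → ℂ) (z : ℂ) (r x : ℝ) :
    vol (tv F' z (ex x)) (tv F' z (av r x)) = 2 * Real.pi * r := by
  rw [vol_apply]
  show (ex x).re * (av r x).im - (ex x).im * (av r x).re = _
  have h : (ex x).re * (ex x).re + (ex x).im * (ex x).im = 1 := by
    have h1 := Complex.sq_norm (ex x)
    rw [norm_ex, Complex.normSq_apply] at h1
    linarith
  unfold av pol
  simp only [Complex.mul_re, Complex.mul_im, Complex.ofReal_re, Complex.ofReal_im, Complex.I_re,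
    Complex.I_im, Complex.re_ofNat, Complex.im_ofNat]
  ring_nf
  ring_nf at h
  have h2 : (ex x).re ^ 2 = 1 - (ex x).im ^ 2 := by linarith
  rw [h2]
  ring

theorem push_wf (hGR : S_GR) {a b : ℝ} {F F' : ℂ → ℂ} (ha : 0 ≤ a) (hab : a < b)
    (hF : Nice a b F F') (ψ : ℂ → ℝ) (m : E → ℝ) :
    push (gr a b F) (rect a b) (wf ψ m) =
      ∫ p in rect a b, ψ (pol p.re p.im) * m (pt (pol p.re p.im) (F (pol p.re p.im))) *
        (2 * Real.pi * p.re) := by
  unfold push
  refine setIntegral_congr_fun (rect_open a b).measurableSet fun p hp => ?_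
  obtain ⟨-, h2⟩ := hGR a b F F' ha hab hF
  obtain ⟨h3, h4⟩ := h2 p hp
  show wf ψ m (gr a b F p) _ _ = _
  rw [h3, h4, wf_val, vol_tv, gr_rect hp]
  rfl

theorem pol_cont : Continuous fun p : ℂ => pol p.re p.im := by
  unfold pol ex
  fun_prop

theorem exists_pol {z1 : ℂ} {s : ℝ} (hs : 0 < s) (hb : ball z1 s ⊆ ball (0 : ℂ) 1) :
    ∃ p ∈ rect 0 1, pol p.re p.im ∈ ball z1 s := by
  obtain ⟨z, hz, hzi⟩ : ∃ z ∈ ball z1 s, z.im ≠ 0 := by
    by_cases h : z1.im = 0
    · refine ⟨z1 + (s / 2 : ℝ) * Complex.I, ?_, ?_⟩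
      · rw [mem_ball, dist_eq_norm, add_sub_cancel_left, norm_mul, Complex.norm_I, mul_one,
          Complex.norm_real, Real.norm_eq_abs, abs_of_pos (by linarith)]
        linarith
      · simp [h]
        linarith
    · exact ⟨z1, mem_ball_self hs, h⟩
  have hz1 : ‖z‖ < 1 := mem_ball_zero_iff.1 (hb hz)
  have hz0 : z ≠ 0 := by
    rintro rfl
    exact hzi rfl
  have harg : (-z).arg < Real.pi := by
    refine lt_of_le_of_ne (Complex.arg_le_pi _) fun h => ?_
    rw [Complex.arg_eq_pi_iff] at h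
    apply hzi
    have := h.2
    rw [Complex.neg_im] at this
    linarith
  have harg2 : -Real.pi < (-z).arg := Complex.neg_pi_lt_arg _
  have hpi := Real.pi_pos
  refine ⟨⟨‖z‖, ((-z).arg + Real.pi) / (2 * Real.pi)⟩, ⟨⟨norm_pos_iff.2 hz0, hz1⟩, ?_, ?_⟩, ?_⟩
  · show 0 < ((-z).arg + Real.pi) / (2 * Real.pi)
    have : 0 < (-z).arg + Real.pi := by linarith
    positivity
  · show ((-z).arg + Real.pi) / (2 * Real.pi) < 1
    rw [div_lt_one (by positivity)]
    linarith
  · have : pol ‖z‖ (((-z).arg + Real.pi) / (2 * Real.pi)) = z := by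
      unfold pol ex
      have h1 : (2 * (Real.pi : ℂ) * ((((-z).arg + Real.pi) / (2 * Real.pi) : ℝ) : ℂ) * Complex.I)
          = ((-z).arg : ℂ) * Complex.I + Real.pi * Complex.I := by
        push_cast
        have : (Real.pi : ℂ) ≠ 0 := by exact_mod_cast hpi.ne'
        field_simp
      rw [h1, Complex.exp_add, Complex.exp_pi_mul_I]
      have h2 := Complex.norm_mul_exp_arg_mul_I (-z)
      rw [norm_neg] at h2
      linear_combination -h2
    show pol ‖z‖ (((-z).arg + Real.pi) / (2 * Real.pi)) ∈ ball z1 s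
    rw [this]
    exact hz

theorem rect_bdd (a b : ℝ) : Bornology.IsBounded (rect a b) := by
  rw [isBounded_iff_forall_norm_le]
  refine ⟨|a| + |b| + 1, fun p hp => ?_⟩
  obtain ⟨⟨h1, h2⟩, h3, h4⟩ := hp
  refine (Complex.norm_le_abs_re_add_abs_im p).trans ?_
  have h5 : |p.re| ≤ |a| + |b| := by
    rw [abs_le]
    constructor
    · have := neg_abs_le a
      have := abs_nonneg b
      linarith
    · have := le_abs_self b
      have := abs_nonneg a
      linarith
  have h6 : |p.im| ≤ 1 := by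
    rw [abs_le]; constructor <;> linarith
  linarith

theorem int_pos {ψ : ℂ → ℝ} (hψ : Continuous ψ) (h0 : ∀ z, 0 ≤ ψ z) {z1 : ℂ} {s : ℝ} (hs : 0 < s)
    (hb : ball z1 s ⊆ ball (0 : ℂ) 1) (h1 : ∀ z ∈ ball z1 s, ψ z = 1) :
    0 < ∫ p in rect 0 1, ψ (pol p.re p.im) * (2 * Real.pi * p.re) := by
  have hc : Continuous fun p : ℂ => ψ (pol p.re p.im) * (2 * Real.pi * p.re) :=
    (hψ.comp pol_cont).mul (continuous_const.mul Complex.continuous_re)
  have hint : IntegrableOn (fun p : ℂ => ψ (pol p.re p.im) * (2 * Real.pi * p.re)) (rect 0 1) := by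
    refine (hc.continuousOn.integrableOn_compact (K := closure (rect 0 1)) ?_).mono_set
      subset_closure
    exact (rect_bdd 0 1).isCompact_closure
  rw [setIntegral_pos_iff_support_of_nonneg_ae _ hint]
  · have hsub : rect 0 1 ∩ {p : ℂ | pol p.re p.im ∈ ball z1 s} ⊆
        Function.support (fun p : ℂ => ψ (pol p.re p.im) * (2 * Real.pi * p.re)) ∩ rect 0 1 := by
      rintro p ⟨hp, hp2⟩
      refine ⟨?_, hp⟩
      show ψ (pol p.re p.im) * (2 * Real.pi * p.re) ≠ 0
      rw [h1 _ hp2, one_mul]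
      have := hp.1.1
      have := Real.pi_pos
      positivity
    refine lt_of_lt_of_le ?_ (measure_mono hsub)
    refine IsOpen.measure_pos _ ((rect_open 0 1).inter (isOpen_ball.preimage pol_cont)) ?_
    obtain ⟨p, hp, hp2⟩ := exists_pol hs hb
    exact ⟨p, hp, hp2⟩
  · filter_upwards [ae_restrict_mem (rect_open 0 1).measurableSet] with p hp
    have := hp.1.1
    have := Real.pi_pos
    have h2 := h0 (pol p.re p.im)
    show 0 ≤ ψ (pol p.re p.im) * (2 * Real.pi * p.re)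
    positivity

theorem supp_mem (hTRA : S_TRA) (hGR : S_GR) {U V : Set E} {T1 : F2 → ℝ}
    {G1 G2 H G1' G2' H' : ℂ → ℂ} (hU : IsOpen U) (hVU : V ⊆ U) (hT : CurrentIn U T1)
    (hZ : ∀ θ, Form2 U θ → Disjoint (tsupport θ) (ZZ G1 G2 H) → T1 θ = 0)
    (hb : ∀ η, Form1 U η → T1 (d η) = 0)
    (n1 : Nice 0 1 G1 G1') (n2 : Nice 0 1 G2 G2') (nH : Nice 1 2 H H')
    (hne : ∀ z ∈ ball (0 : ℂ) 1, G1 z ≠ G2 z) {c : ℂ} {r : ℝ}
    (hin : ∀ z ∈ closedBall (0 : ℂ) 1 ∩ ball c r, pt z (G1 z) ∈ V) {e : ℂ} (he : ‖e‖ = 1)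
    (hec : ‖e - c‖ < r) {ρ : ℝ} (hρ : 0 < ρ)
    (hed : ∀ z, ‖z - e‖ < ρ → (‖z‖ ≤ 1 → G1 z ≠ G2 z) ∧ (‖z‖ = 1 → G1 z ≠ H z))
    {z1 : ℂ} (hz1 : z1 ∈ ball (0 : ℂ) 1 ∩ ball c r) :
    pt z1 (G1 z1) ∈ supp V (fun θ => TTT G1 G2 H θ - T1 θ) := by
  have hset : {z : ℂ | (0 : ℝ) ≤ ‖z‖ ∧ ‖z‖ ≤ 1} = closedBall 0 1 := by
    ext z
    simp
  have c1 : ContinuousOn G1 (closedBall 0 1) := hset ▸ n1.cont
  have c2 : ContinuousOn G2 (closedBall 0 1) := hset ▸ n2.cont
  obtain ⟨δ, hδ, hδs, hvan⟩ := van hTRA hU hT hZ hb c1 c2 nH.cont hne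
    (fun z hz => hVU (hin z hz)) he hec hρ hed hz1
  refine ⟨hin z1 ⟨ball_subset_closedBall hz1.1, hz1.2⟩, fun W hW hzW hWV => ?_⟩
  -- a smaller disc
  have hc1 : ContinuousAt (fun z => pt z (G1 z)) z1 := by
    have h1 : ContinuousAt G1 z1 := by
      refine (c1 z1 (ball_subset_closedBall hz1.1)).continuousAt ?_
      exact mem_of_superset (isOpen_ball.mem_nhds hz1.1) ball_subset_closedBall
    exact pt_cont.continuousAt.comp (continuousAt_id.prodMk h1)
  obtain ⟨δ1, hδ1, hδ1W⟩ : ∃ δ1 > 0, ∀ z ∈ ball z1 δ1, pt z (G1 z) ∈ W := by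
    have := hc1.preimage_mem_nhds (hW.mem_nhds hzW)
    obtain ⟨δ1, h1, h2⟩ := Metric.mem_nhds_iff.1 this
    exact ⟨δ1, h1, fun z hz => h2 hz⟩
  set s : ℝ := min δ (δ1 / 2) with hs
  have hsp : 0 < s := lt_min hδ (by linarith)
  have hsδ : s ≤ δ := min_le_left _ _
  have hsδ1 : s < δ1 := (min_le_right _ _).trans_lt (by linarith)
  have hcb : closedBall z1 s ⊆ ball (0 : ℂ) 1 ∩ ball c r :=
    (closedBall_subset_closedBall hsδ).trans hδs
  have hcb1 : closedBall z1 s ⊆ closedBall (0 : ℂ) 1 := fun z hz => ball_subset_closedBall (hcb hz).1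
  -- bump
  let bb : ContDiffBump z1 := ⟨s / 2, s, by linarith, by linarith⟩
  let ψ : ℂ → ℝ := fun z => bb z
  have hψ : ContDiff ℝ ∞ ψ := bb.contDiff
  have hψt : tsupport ψ = closedBall z1 s := bb.tsupport_eq
  have hψ0 : ∀ z, 0 ≤ ψ z := fun z => bb.nonneg
  have hψ1 : ∀ z ∈ ball z1 (s / 2), ψ z = 1 := fun z hz =>
    bb.one_of_mem_closedBall (ball_subset_closedBall hz)
  -- cut-off
  set A : Set E := (fun z => pt z (G1 z)) '' closedBall z1 s with hA
  set B : Set E := (fun z => pt z (G2 z)) '' closedBall z1 s with hB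
  have hAc : IsCompact A := graph_compact (isCompact_closedBall _ _) (c1.mono hcb1)
  have hBc : IsCompact B := graph_compact (isCompact_closedBall _ _) (c2.mono hcb1)
  have hAW : A ⊆ W := by
    rintro _ ⟨z, hz, rfl⟩
    exact hδ1W z (closedBall_subset_ball hsδ1 hz)
  have hAB : Disjoint A B := by
    rw [disjoint_left]
    rintro _ ⟨z, hz, rfl⟩ ⟨w, hw, hwz⟩
    have h1 : w = z := congrArg (fun x : E => x.fst) hwz
    have h2 : G2 w = G1 z := congrArg (fun x : E => x.snd) hwz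
    subst h1
    exact hne w (hcb hw).1 h2.symm
  obtain ⟨m, ms, mc, mW, -, mA, mB⟩ := ury hAc hBc.isClosed hW hAW hAB
  refine ⟨wf ψ m, wf_form hψ ms mc mW, ?_⟩
  have hT1 : T1 (wf ψ m) = 0 := by
    refine hvan ψ m hψ ?_ ms mc (mW.trans (hWV.trans hVU)) ?_ ?_
    · rw [hψt]
      exact closedBall_subset_closedBall hsδ
    · intro x hx hx2
      rw [hψt] at hx
      exact mA x (mem_graph hx hx2)
    · intro x hx hx2
      rw [hψt] at hx
      exact mB x (mem_graph hx hx2)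
  have hψout : ∀ z ∉ closedBall z1 s, ψ z = 0 := by
    intro z hz
    by_contra h
    exact hz (hψt ▸ subset_tsupport ψ h)
  have p1 : push (gr 0 1 G1) (rect 0 1) (wf ψ m) =
      ∫ p in rect 0 1, ψ (pol p.re p.im) * (2 * Real.pi * p.re) := by
    rw [push_wf hGR le_rfl one_pos n1]
    refine setIntegral_congr_fun (rect_open 0 1).measurableSet fun p hp => ?_
    show ψ (pol p.re p.im) * m (pt (pol p.re p.im) (G1 (pol p.re p.im))) * (2 * Real.pi * p.re) =
      ψ (pol p.re p.im) * (2 * Real.pi * p.re)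
    by_cases h : pol p.re p.im ∈ closedBall z1 s
    · have : m (pt (pol p.re p.im) (G1 (pol p.re p.im))) = 1 :=
        (mA _ ⟨_, h, rfl⟩).self_of_nhds
      rw [this, mul_one]
    · rw [hψout _ h, zero_mul, zero_mul]
  have p2 : push (gr 0 1 G2) (rect 0 1) (wf ψ m) = 0 := by
    rw [push_wf hGR le_rfl one_pos n2]
    refine (setIntegral_congr_fun (rect_open 0 1).measurableSet fun p hp => ?_).trans
      (integral_zero _ _)
    show ψ (pol p.re p.im) * m (pt (pol p.re p.im) (G2 (pol p.re p.im))) * (2 * Real.pi * p.re) = 0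
    by_cases h : pol p.re p.im ∈ closedBall z1 s
    · have : m (pt (pol p.re p.im) (G2 (pol p.re p.im))) = 0 :=
        (mB _ ⟨_, h, rfl⟩).self_of_nhds
      rw [this, mul_zero, zero_mul]
    · rw [hψout _ h, zero_mul, zero_mul]
  have p3 : push (gr 1 2 H) (rect 1 2) (wf ψ m) = 0 := by
    rw [push_wf hGR zero_le_one (by norm_num) nH]
    refine (setIntegral_congr_fun (rect_open 1 2).measurableSet fun p hp => ?_).trans
      (integral_zero _ _)
    show ψ (pol p.re p.im) * m (pt (pol p.re p.im) (H (pol p.re p.im))) * (2 * Real.pi * p.re) = 0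
    have h : pol p.re p.im ∉ closedBall z1 s := by
      intro h
      have h1 := mem_ball_zero_iff.1 (hcb h).1
      rw [norm_pol] at h1
      have h2 := hp.1.1
      have h3 := le_abs_self p.re
      linarith
    rw [hψout _ h, zero_mul, zero_mul]
  have hpos := int_pos hψ.continuous hψ0 (by linarith : (0 : ℝ) < s / 2)
    (fun z hz => (hcb (ball_subset_closedBall (ball_subset_ball (by linarith) hz))).1) hψ1
  show TTT G1 G2 H (wf ψ m) - T1 (wf ψ m) ≠ 0
  rw [hT1]
  unfold TTT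
  rw [p1, p2, p3]
  intro h
  linarith

end Pool.Agent.Y305.BC
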