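import Pool.Agent.Y305.BC.Bas

/-! Statements of the jobs of project BC. -/

set_option autoImplicit false

open MeasureTheory Metric Set Filter Topology
open scoped ContDiff ENNReal

namespace Pool.Agent.Y305.BC

/-- BC-CAN: the Cantor set, its levels and its gaps -/
def S_CAN : Prop :=
  IsCompact KK ∧ KK ⊆ Icc 0 (1 / 4) ∧
  (∀ A : Finset ℕ, xx A ∈ KK) ∧
  (∀ (w : ℕ → Bool) (n : ℕ), xx ((Finset.range n).filter fun k => w k = true) ≤ cc w ∧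
      cc w ≤ xx ((Finset.range n).filter fun k => w k = true) + ll n) ∧
  (∀ t, chi t = 0 ∨ chi t = 1) ∧
  (∀ t ∉ KK, ∀ᶠ s in 𝓝 t, chi s = chi t) ∧
  (∀ t ∉ Icc (0 : ℝ) (1 / 4), chi t = 0) ∧
  (∀ x ∈ KK, ∀ δ > 0, ∃ t, |t - x| < δ ∧ t ∉ KK ∧ chi t = 0) ∧
  (∀ x ∈ KK, ∀ δ > 0, ∃ t, |t - x| < δ ∧ t ∉ KK ∧ chi t = 1)

/-- BC-DIM: the Cantor set has dimension one -/
def S_DIM : Prop := 1 ≤ dimH KK

/-- the properties of the function `q` -/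
def Pot (q : ℂ → ℂ) (RR : Set ℂ) (c : ℝ) : Prop :=
  0 < c ∧ IsOpen RR ∧ DifferentiableOn ℂ q RR ∧ (∀ z ∈ RR, q z ≠ 0) ∧ (∀ x ∈ KK, q (ex x) = 0) ∧
  (∀ z, ‖z‖ ≤ 1 → z ∉ KC → ∀ w, ‖w - z‖ ≤ c * dk z ^ 2 → w ∈ RR) ∧
  (∀ m : ℕ, ∃ C, ∀ z, ‖z‖ ≤ 1 → z ∉ KC → ∀ w, ‖w - z‖ ≤ c * dk z ^ 2 → ‖q w‖ ≤ C * dk z ^ m)

/-- BC-POT: existence of the function `q` -/
def S_POT : Prop :=
  IsCompact KK → (∀ A : Finset ℕ, xx A ∈ KK) →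
  (∀ (w : ℕ → Bool) (n : ℕ), xx ((Finset.range n).filter fun k => w k = true) ≤ cc w ∧
      cc w ≤ xx ((Finset.range n).filter fun k => w k = true) + ll n) →
  ∃ q RR c, Pot q RR c

/-- BC-QSM: `q` is smooth up to the circle, flat on the Cantor set -/
def S_QSM : Prop :=
  ∀ (q : ℂ → ℂ) (RR : Set ℂ) (c : ℝ), IsCompact KK → Pot q RR c →
  ∃ q' : ℂ → ℂ, Nice 0 1 q q' ∧
    ∀ χ : ℝ → ℝ, (∀ t, |χ t| ≤ 1) → (∀ t ∉ KK, ∀ᶠ s in 𝓝 t, χ s = χ t) →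
      ContDiff ℝ ∞ (fun t : ℝ => (χ t : ℂ) * q (ex t)) ∧
      ∀ t : ℝ, HasDerivAt (fun t : ℝ => (χ t : ℂ) * q (ex t))
        ((χ t : ℂ) * (q' (ex t) * av 1 t)) t

/-- BC-FOU: decomposition of a smooth function on the circle -/
def S_FOU : Prop :=
  ∀ h : ℝ → ℂ, ContDiff ℝ ∞ h → (∀ x ∉ Icc (0 : ℝ) (1 / 4), h x = 0) →
  ∃ P P' M M' : ℂ → ℂ, Nice 0 1 P P' ∧ Nice 1 2 M M' ∧
    ContDiff ℝ ∞ (fun x : ℝ => P (ex x)) ∧ ContDiff ℝ ∞ (fun x : ℝ => M (pol 2 x)) ∧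
    ∀ x : ℝ, -(1 / 2) ≤ x → x ≤ 1 / 2 → P (ex x) - M (ex x) = h x

/-- BC-GR: the graph maps are Lipschitz; their derivative -/
def S_GR : Prop :=
  ∀ (a b : ℝ) (F F' : ℂ → ℂ), 0 ≤ a → a < b → Nice a b F F' →
    (∃ K, LipschitzWith K (gr a b F)) ∧
    ∀ p ∈ rect a b,
      fderiv ℝ (gr a b F) p 1 = tv F' (pol p.re p.im) (ex p.im) ∧
      fderiv ℝ (gr a b F) p Complex.I = tv F' (pol p.re p.im) (av p.re p.im)

/-- BC-BD: the derivative along the circles -/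
def S_BD : Prop :=
  ∀ (a b : ℝ) (F F' : ℂ → ℂ), 0 ≤ a → a < b → Nice a b F F' → ∀ r ∈ Icc a b, ∀ x : ℝ,
    HasDerivAt (fun x : ℝ => F (pol r x)) (F' (pol r x) * av r x) x

/-- BC-ST: Stokes' theorem for the graph maps -/
def S_ST : Prop :=
  S_GR → ∀ (a b : ℝ) (F F' : ℂ → ℂ), 0 ≤ a → a < b → Nice a b F F' → ∀ η : F1, ContDiff ℝ ∞ η →
    push (gr a b F) (rect a b) (d η) =
      (∫ x in (0 : ℝ)..1, η (pt (pol b x) (F (pol b x))) (tv F' (pol b x) (av b x))) -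
      ∫ x in (0 : ℝ)..1, η (pt (pol a x) (F (pol a x))) (tv F' (pol a x) (av a x))

/-- BC-CAL: the graph maps are calibrated -/
def S_CAL : Prop :=
  S_GR → ∀ (a b : ℝ) (F F' : ℂ → ℂ), 0 ≤ a → a < b → Nice a b F F' → ∀ θ : F2,
    Form2 univ θ → (∀ x, ‖θ x‖ ≤ 1) →
    push (gr a b F) (rect a b) θ ≤ push (gr a b F) (rect a b) (fun _ => kah)

/-- BC-LIN (1): integer rectifiable currents are additive -/
def S_LIN : Prop :=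
  ∀ S, IntRect S → ∀ θ₁ θ₂ : F2, Form2 univ θ₁ → Form2 univ θ₂ →
    S (fun x => θ₁ x + θ₂ x) = S θ₁ + S θ₂

/-- BC-LIN (2): the mass of an integer rectifiable current far away is small -/
def S_FAR : Prop :=
  ∀ S, IntRect S → ∀ (C : ℝ) (θ : ℕ → F2), (∀ n, Form2 univ (θ n)) → (∀ n x, ‖θ n x‖ ≤ C) →
    (∀ (n : ℕ) (x : E), ‖x‖ ≤ n → θ n x = 0) → Tendsto (fun n => S (θ n)) atTop (𝓝 0)

/-- BC-CUT: cutting off the primitive of the Kähler form -/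
def S_CUT : Prop :=
  ∃ C : ℝ, ∀ n : ℕ, 1 ≤ n → ∃ (η : F1) (κ β : F2), Form1 univ η ∧ Form2 univ κ ∧ Form2 univ β ∧
    d η = (fun x => κ x + β x) ∧ (∀ x, ‖κ x‖ ≤ 1) ∧ (∀ x, ‖x‖ ≤ n → κ x = kah) ∧
    (∀ x, ‖β x‖ ≤ C) ∧ ∀ x, ‖x‖ ≤ n → β x = 0

/-- BC-TRA: a current without boundary does not change under translations along a sheet -/
def S_TRA : Prop :=
  ∀ (U : Set E) (T : F2 → ℝ) (Z : Set E), IsOpen U → CurrentIn U T →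
    (∀ θ, Form2 U θ → Disjoint (tsupport θ) Z → T θ = 0) → (∀ η, Form1 U η → T (d η) = 0) →
    ∀ (ψ : ℂ → ℝ) (m : E → ℝ) (v : ℂ) (O : Set E), ContDiff ℝ ∞ ψ → HasCompactSupport ψ →
      ContDiff ℝ ∞ m → HasCompactSupport m → tsupport m ⊆ U → IsOpen O →
      (∀ x ∈ O, fderiv ℝ m x = 0) →
      (∀ s ∈ Icc (0 : ℝ) 1, ∀ x ∈ Z, x ∈ tsupport m → x.fst - s • v ∈ tsupport ψ → x ∈ O) →
      T (wf ψ m) = T (wf (fun z => ψ (z - v)) m)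

/-- BC-EMB: two sheets touching at a point of the circle do not lie on one smooth surface -/
def S_EMB : Prop :=
  ∀ (c F' : ℂ) (V : Set E) (Φ : E → ℂ) (F q : ℂ → ℂ) (r : ℝ), ‖c‖ = 1 → 0 < r → IsOpen V →
    pt c (F c) ∈ V → ContDiffOn ℝ ∞ Φ V → Function.Surjective (fderiv ℝ Φ (pt c (F c))) →
    HasDerivWithinAt F F' (closedBall 0 1) c → Tendsto q (𝓝[ball 0 1] c) (𝓝 0) →
    (∀ z ∈ ball (0 : ℂ) 1 ∩ ball c r, q z ≠ 0 ∧ Φ (pt z (F z)) = 0 ∧ Φ (pt z (F z - q z)) = 0) →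
    False

end Pool.Agent.Y305.BC
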